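import Mathlib

/-!
Elementary lemmas for the exponential equations of MP_545343_nt.
-/

set_option autoImplicit false

namespace Pool.Agent.Q37.E545

/-- two `g`-th powers do not differ by two -/
lemma pow_ne_pow_add_two (g A B : ℕ) (hg : 2 ≤ g) (hB : 2 ≤ B) : A ^ g ≠ B ^ g + 2 := by
  intro h
  have h1 : B < A := by
    by_contra hc
    push Not at hc
    have := Nat.pow_le_pow_left hc g
    omega
  have h2 : (B + 1) ^ g ≤ A ^ g := Nat.pow_le_pow_left h1 g
  obtain ⟨k, rfl⟩ : ∃ k, g = k + 2 := ⟨g - 2, by omega⟩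
  have h3 : B ^ (k + 2) + B * B ^ k * 2 ≤ (B + 1) ^ (k + 2) := by
    have e1 : (B + 1) ^ (k + 2) = (B + 1) ^ k * (B + 1) ^ 2 := by ring
    have e2 : B ^ k ≤ (B + 1) ^ k := Nat.pow_le_pow_left (by omega) k
    have e3 : B ^ k * (B + 1) ^ 2 = B ^ (k + 2) + B * B ^ k * 2 + B ^ k := by ring
    calc B ^ (k + 2) + B * B ^ k * 2 ≤ B ^ k * (B + 1) ^ 2 := by rw [e3]; exact Nat.le_add_right _ _
      _ ≤ (B + 1) ^ k * (B + 1) ^ 2 := Nat.mul_le_mul_right _ e2
      _ = _ := e1.symm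
  have h4 : 1 ≤ B ^ k := Nat.one_le_pow _ _ (by omega)
  have h5 : 2 ≤ B * B ^ k := by nlinarith
  omega

/-- exponents in a difference two of powers are coprime -/
lemma coprime_of_eq (A B a b : ℕ) (hB : 2 ≤ B) (ha : 1 ≤ a) (hb : 1 ≤ b) (h : A ^ a = B ^ b + 2) :
    Nat.Coprime a b := by
  by_contra hc
  have hg : 2 ≤ Nat.gcd a b := by
    have h0 : Nat.gcd a b ≠ 0 := Nat.gcd_ne_zero_left (by omega)
    have h1 : Nat.gcd a b ≠ 1 := hc
    omega
  obtain ⟨a', ha'⟩ := Nat.gcd_dvd_left a b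
  obtain ⟨b', hb'⟩ := Nat.gcd_dvd_right a b
  have hb'0 : b' ≠ 0 := by
    rintro rfl
    omega
  apply pow_ne_pow_add_two (Nat.gcd a b) (A ^ a') (B ^ b') hg
  · calc 2 ≤ B := hB
      _ = B ^ 1 := (pow_one B).symm
      _ ≤ B ^ b' := Nat.pow_le_pow_right (by omega) (by omega)
  · rw [← pow_mul, ← pow_mul, mul_comm a', mul_comm b', ← ha', ← hb']
    exact h

/-- `(z - 1) ^ m + 1 ≡ m z` modulo `z ^ 2` for odd `m` -/
lemma sq_dvd_odd (z : ℤ) (m : ℕ) (hm : Odd m) : z ^ 2 ∣ (z - 1) ^ m + 1 - m * z := by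
  obtain ⟨k, rfl⟩ := hm
  induction k with
  | zero => simp
  | succ k ih =>
    obtain ⟨c, hc⟩ := ih
    have e : (z - 1) ^ (2 * (k + 1) + 1) = (z - 1) ^ (2 * k + 1) * (z - 1) ^ 2 := by ring
    have e2 : (z - 1) ^ (2 * k + 1) = z ^ 2 * c - 1 + (2 * k + 1 : ℕ) * z := by linarith
    rw [e, e2]
    refine ⟨c * (z - 1) ^ 2 - 1 + (2 * k + 1 : ℕ) * z - 2 * (2 * k + 1 : ℕ), ?_⟩
    push_cast
    ring

/-- `(1 + z) ^ m ≡ 1 + m z` modulo `z ^ 2` -/
lemma sq_dvd_one (z : ℤ) (m : ℕ) : z ^ 2 ∣ (1 + z) ^ m - 1 - m * z := by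
  induction m with
  | zero => simp
  | succ k ih =>
    obtain ⟨c, hc⟩ := ih
    have e2 : (1 + z) ^ k = z ^ 2 * c + 1 + k * z := by linarith
    have e3 : (1 + z) ^ (k + 1) = (1 + z) ^ k * (1 + z) := pow_succ _ _
    rw [e3, e2]
    refine ⟨c * (1 + z) + k, ?_⟩
    push_cast
    ring

/-- `d ^ x + 1 ∣ d ^ y + 1` implies that `y` is an odd multiple of `x` -/
lemma dvd_of_pow_add_one (d x y : ℕ) (hd : 2 ≤ d) (hx : 1 ≤ x)
    (h : ((d : ℤ) ^ x + 1) ∣ (d : ℤ) ^ y + 1) : ∃ q, Odd q ∧ y = x * q := by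
  obtain ⟨q, r, hr, hy⟩ : ∃ q r, r < x ∧ y = x * q + r :=
    ⟨y / x, y % x, Nat.mod_lt _ hx, (Nat.div_add_mod y x).symm⟩
  have hdr : d ^ r < d ^ x := Nat.pow_lt_pow_right (by omega) hr
  have hdr0 : 0 < d ^ r := Nat.pow_pos (by omega)
  have e1 : ((d : ℤ) ^ x + 1) ∣ (d : ℤ) ^ (x * q) - (-1) ^ q := by
    rw [pow_mul]
    have := sub_dvd_pow_sub_pow ((d : ℤ) ^ x) (-1) q
    simpa using this
  have e2 : (d : ℤ) ^ y + 1 = ((d : ℤ) ^ (x * q) - (-1) ^ q) * (d : ℤ) ^ r + ((-1) ^ q * (d : ℤ) ^ r + 1) := by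
    rw [hy, pow_add]; ring
  rw [e2] at h
  have h3 : ((d : ℤ) ^ x + 1) ∣ (-1) ^ q * (d : ℤ) ^ r + 1 :=
    (Int.dvd_add_right (Dvd.dvd.mul_right e1 _)).1 h
  rcases Nat.even_or_odd q with hq | hq
  · exfalso
    rw [hq.neg_one_pow, one_mul] at h3
    have h4 : (d ^ x + 1) ∣ (d ^ r + 1) := by exact_mod_cast h3
    have := Nat.le_of_dvd (by omega) h4
    omega
  · refine ⟨q, hq, ?_⟩
    rw [hq.neg_one_pow] at h3
    have h4 : ((d : ℤ) ^ x + 1) ∣ (d : ℤ) ^ r - 1 := by
      have := (dvd_neg.2 h3)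
      rwa [show -(-1 * (d : ℤ) ^ r + 1) = (d : ℤ) ^ r - 1 by ring] at this
    have h5 : (d ^ x + 1) ∣ (d ^ r - 1) := by
      have : ((d ^ x + 1 : ℕ) : ℤ) ∣ ((d ^ r - 1 : ℕ) : ℤ) := by
        push_cast [Nat.cast_sub hdr0]
        exact h4
      exact_mod_cast this
    have h6 : d ^ r - 1 = 0 := Nat.eq_zero_of_dvd_of_lt h5 (by omega)
    have h7 : r = 0 := by
      by_contra hr0
      have : d ^ 1 ≤ d ^ r := Nat.pow_le_pow_right (by omega) (by omega)
      rw [pow_one] at this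
      omega
    rw [hy, h7, add_zero]

/-- the exact power of `p` in `(1 + u) ^ n - 1` -/
lemma padic_one_add (p u n : ℕ) (hp : p.Prime) (hu0 : u ≠ 0) (hu : p ∣ u) (hu4 : p = 2 → 4 ∣ u) (hn : n ≠ 0) :
    padicValNat p ((u + 1) ^ n - 1) = padicValNat p u + padicValNat p n := by
  have : Fact p.Prime := ⟨hp⟩
  have hnd : ¬ p ∣ u + 1 := by
    intro h
    have := (Nat.dvd_add_right hu).1 h
    exact hp.one_lt.ne' (Nat.dvd_one.1 this)
  rcases hp.eq_two_or_odd' with h2 | hodd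
  · subst h2
    have h4 : 4 ∣ u := hu4 rfl
    have hval2 : padicValNat 2 (u + 2) = 1 := by
      obtain ⟨k, rfl⟩ := h4
      have e : 4 * k + 2 = 2 * (2 * k + 1) := by ring
      rw [e, padicValNat.mul (by norm_num) (by omega), padicValNat.self (by norm_num),
        padicValNat.eq_zero_of_not_dvd (by omega)]
    have key : ∀ k, k ≠ 0 → Even k → padicValNat 2 ((u + 1) ^ k - 1) = padicValNat 2 u + padicValNat 2 k := by
      intro k hk hke
      have := @padicValNat.pow_two_sub_pow (u + 1) 1 (by omega) (by simpa using hu) hnd k hk hke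
      rw [one_pow, show u + 1 + 1 = u + 2 by ring, hval2, show u + 1 - 1 = u by omega] at this
      omega
    rcases Nat.even_or_odd n with he | ho
    · exact key n hn he
    · obtain ⟨k, rfl⟩ := ho
      have hvn : padicValNat 2 (2 * k + 1) = 0 := padicValNat.eq_zero_of_not_dvd (by omega)
      rw [hvn, add_zero]
      have e : (u + 1) ^ (2 * k + 1) - 1 = u * (∑ i ∈ Finset.range (2 * k + 1), (u + 1) ^ i) := by
        have := Nat.geomSum_eq (m := u + 1) (by omega) (2 * k + 1)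
        rw [this, show u + 1 - 1 = u by omega, Nat.mul_div_cancel']
        have := Nat.sub_dvd_pow_sub_pow (u + 1) 1 (2 * k + 1)
        simpa using this
      have hs : ¬ 2 ∣ ∑ i ∈ Finset.range (2 * k + 1), (u + 1) ^ i := by
        rw [Nat.two_dvd_ne_zero]
        have : Odd (∑ i ∈ Finset.range (2 * k + 1), (u + 1) ^ i) := by
          rw [Finset.odd_sum_iff_odd_card_odd]
          have : (Finset.range (2 * k + 1)).filter (fun i => Odd ((u + 1) ^ i)) = Finset.range (2 * k + 1) := by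
            apply Finset.filter_true_of_mem
            intro i _
            apply Odd.pow
            rw [← Nat.not_even_iff_odd]
            intro h
            exact hnd h.two_dvd
          rw [this, Finset.card_range]
          exact ⟨k, rfl⟩
        exact Nat.odd_iff.1 this
      have hs0 : (∑ i ∈ Finset.range (2 * k + 1), (u + 1) ^ i) ≠ 0 := by
        intro h
        rw [h] at hs
        exact hs (dvd_zero 2)
      rw [e, padicValNat.mul hu0 hs0, padicValNat.eq_zero_of_not_dvd hs, add_zero]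
  · have := @padicValNat.pow_sub_pow (u + 1) 1 p _ hodd (by omega) (by simpa using hu) hnd n hn
    rw [one_pow, show u + 1 - 1 = u by omega] at this
    exact this

/-- a divisibility criterion -/
lemma dvd_of_padic (a b : ℕ) (hb : b ≠ 0)
    (h : ∀ p : ℕ, p.Prime → p ∣ a → padicValNat p a ≤ padicValNat p b) (ha : a ≠ 0) : a ∣ b := by
  rw [← Nat.factorization_prime_le_iff_dvd ha hb]
  intro p hp
  rw [Nat.factorization_def _ hp, Nat.factorization_def _ hp]
  by_cases hpa : p ∣ a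
  · exact h p hp hpa
  · rw [padicValNat.eq_zero_of_not_dvd hpa]
    exact Nat.zero_le _

/-- `X ^ 2 - (w ^ 2 - 1) Z ^ 2 = 2` has no solutions -/
lemma pell_none (w : ℕ) (hw : 1 ≤ w) : ∀ Z X : ℕ, X ^ 2 + Z ^ 2 ≠ w ^ 2 * Z ^ 2 + 2 := by
  intro Z
  induction Z using Nat.strong_induction_on with
  | _ Z ih =>
    intro X h
    rcases Nat.lt_or_ge Z 2 with hZ | hZ
    · interval_cases Z
      · have : X < 2 := by nlinarith
        interval_cases X <;> omega
      · have h1 : w < X := by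
          by_contra hc
          push Not at hc
          nlinarith
        have h2 : X < w + 1 := by
          by_contra hc
          push Not at hc
          nlinarith
        omega
    · have h1 : X < w * Z := by
        by_contra hc
        push Not at hc
        have : (w * Z) ^ 2 ≤ X ^ 2 := Nat.pow_le_pow_left hc 2
        nlinarith
      have h2 : (w - 1) * Z < X := by
        obtain ⟨v, rfl⟩ : ∃ v, w = v + 1 := ⟨w - 1, by omega⟩
        by_contra hc
        push Not at hc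
        rw [Nat.add_sub_cancel] at hc
        have : X ^ 2 ≤ (v * Z) ^ 2 := Nat.pow_le_pow_left hc 2
        nlinarith [Nat.zero_le (v * Z ^ 2)]
      have h3 : w * Z - X < Z := by
        obtain ⟨v, rfl⟩ : ∃ v, w = v + 1 := ⟨w - 1, by omega⟩
        rw [Nat.add_sub_cancel] at h2
        have : (v + 1) * Z = v * Z + Z := by ring
        omega
      have h4 : (w ^ 2 - 1) * Z ≤ w * X := by
        -- (w^2-1) Z < w X since X^2 > (w^2-1) Z^2 and ...
        obtain ⟨v, rfl⟩ : ∃ v, w = v + 1 := ⟨w - 1, by omega⟩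
        by_contra hc
        push Not at hc
        have e : (v + 1) ^ 2 - 1 = v ^ 2 + 2 * v := by
          have : (v + 1) ^ 2 = v ^ 2 + 2 * v + 1 := by ring
          omega
        rw [e] at hc
        have h5 : ((v + 1) * X) ^ 2 < ((v ^ 2 + 2 * v) * Z) ^ 2 := Nat.pow_lt_pow_left hc (by norm_num)
        have h6 : X ^ 2 = (v ^ 2 + 2 * v) * Z ^ 2 + 2 := by nlinarith
        have h7 : ((v + 1) * X) ^ 2 = (v + 1) ^ 2 * ((v ^ 2 + 2 * v) * Z ^ 2 + 2) := by
          rw [mul_pow, h6]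
        rw [h7] at h5
        nlinarith [Nat.zero_le ((v ^ 2 + 2 * v) * Z ^ 2), Nat.zero_le (v ^ 2 + 2 * v)]
      apply ih (w * Z - X) h3 (w * X - (w ^ 2 - 1) * Z)
      have hw2 : 1 ≤ w ^ 2 := Nat.one_le_pow _ _ hw
      zify [h1.le, h4, hw2] at h ⊢
      linear_combination h

end Pool.Agent.Q37.E545
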