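import Mathlib
import Pool.Agent.H440R2.LFL
import Pool.Agent.Q37.E545.Basic

/-!
A bound for the exponents in `P ^ a = Q ^ b + 2` from linear forms in two logarithms
(`Pool.Agent.H440R2.lfl_core`).
-/

set_option autoImplicit false

namespace Pool.Agent.Q37.E545

/-- linear forms in two logarithms, applied to `P ^ a = Q ^ b + 2` -/
lemma bk (P Q a b Y n : ℕ) (hP : 2 ≤ P) (hPQ : P ≤ Q) (ha : 1 ≤ a) (hb : 1 ≤ b)
    (hab : Nat.Coprime a b) (heq : P ^ a = Q ^ b + 2) (hn : 10 ≤ n) (hY1 : 1 ≤ Y)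
    (hY : Real.log Q ≤ Y) (hsum : 290 * Y * (12 * n) * (a + b) ≤ 4 ^ n)
    (hM : 145 * Y * (12 * n) ≤ a) :
    (b : ℝ) * Real.log Q < 20880 * (Y : ℝ) ^ 2 * (12 * n : ℕ) ^ 2 + 1 := by
  have hP0 : (0 : ℝ) < P := by positivity
  have hQ0 : (0 : ℝ) < Q := by
    have : 0 < Q := by omega
    exact_mod_cast this
  have hlog4 : Real.log 4 ≤ 1.3863 := by
    have : Real.log 4 = 2 * Real.log 2 := by
      rw [show (4 : ℝ) = 2 ^ 2 by norm_num, Real.log_pow]; norm_num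
    rw [this]
    have := Real.log_two_lt_d9
    linarith
  have hnr : (10 : ℝ) ≤ n := by exact_mod_cast hn
  have hL : 8 * (1 + Real.log (290 * Y * (12 * n : ℕ) * (a + b))) ≤ ((12 * n : ℕ) : ℝ) := by
    have h1 : Real.log (290 * Y * (12 * n : ℕ) * (a + b)) ≤ n * Real.log 4 := by
      rw [← Real.log_pow]
      apply Real.log_le_log
      · have h2 : (0 : ℝ) < (12 * n : ℕ) := by
          have : 0 < 12 * n := by omega
          exact_mod_cast this
        have h3 : (0 : ℝ) < Y := by exact_mod_cast hY1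
        have h4 : (0 : ℝ) < a := by exact_mod_cast ha
        positivity
      · exact_mod_cast hsum
    have h2 : (n : ℝ) * Real.log 4 ≤ n * 1.3863 := mul_le_mul_of_nonneg_left hlog4 (by linarith)
    push_cast at h1 ⊢
    linarith
  have hPY : Real.log P ≤ Y := by
    refine le_trans (Real.log_le_log hP0 ?_) hY
    exact_mod_cast hPQ
  have key := Pool.Agent.H440R2.lfl_core P Q a b Y (12 * n) hP (by omega) ha hb hab hY1 (by omega)
    hPY hY hM hL
  have heqr : (P : ℝ) ^ a = (Q : ℝ) ^ b + 2 := by exact_mod_cast heq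
  have hQb : (0 : ℝ) < (Q : ℝ) ^ b := by positivity
  have e1 : (a : ℝ) * Real.log P = b * Real.log Q + Real.log (1 + 2 / (Q : ℝ) ^ b) := by
    rw [← Real.log_pow, ← Real.log_pow, ← Real.log_mul hQb.ne' (by positivity), heqr]
    congr 1
    field_simp
  have e2 : |(b : ℝ) * Real.log Q - a * Real.log P| ≤ 2 / (Q : ℝ) ^ b := by
    rw [e1]
    have h1 : (b : ℝ) * Real.log Q - (b * Real.log Q + Real.log (1 + 2 / (Q : ℝ) ^ b)) =
        -Real.log (1 + 2 / (Q : ℝ) ^ b) := by ring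
    rw [h1, abs_neg, abs_of_nonneg (Real.log_nonneg (by
      have : 0 ≤ 2 / (Q : ℝ) ^ b := by positivity
      linarith))]
    have := Real.log_le_sub_one_of_pos (x := 1 + 2 / (Q : ℝ) ^ b) (by positivity)
    linarith
  have e3 : Real.exp (-(20880 * (Y : ℝ) ^ 2 * ((12 * n : ℕ) : ℝ) ^ 2)) < 2 / (Q : ℝ) ^ b :=
    lt_of_lt_of_le key e2
  have e4 : -(20880 * (Y : ℝ) ^ 2 * ((12 * n : ℕ) : ℝ) ^ 2) < Real.log 2 - b * Real.log Q := by
    rw [← Real.log_pow, ← Real.log_div (by norm_num) hQb.ne', Real.lt_log_iff_exp_lt (by positivity)]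
    exact e3
  have := Real.log_two_lt_d9
  linarith

/-- a version without `Y`: `b < 3006720 n ^ 2 (log Q + 3) + 1` -/
lemma bk2 (P Q a b n : ℕ) (hP : 2 ≤ P) (hPQ : P ≤ Q) (hQ : 7 ≤ Q) (ha : 1 ≤ a) (hb : 1 ≤ b)
    (heq : P ^ a = Q ^ b + 2) (hn : 39 ≤ n)
    (hQn : Q ≤ 8 ^ n) (hsum : a + b ≤ (n + 2) * 2 ^ (n + 1))
    (hM : 2 ^ n ≤ a) :
    (b : ℝ) < 3006720 * (n : ℝ) ^ 2 * (Real.log Q + 3) + 1 := by
  have hab : Nat.Coprime a b := coprime_of_eq P Q a b (by omega) ha hb heq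
  have hQ0 : (0 : ℝ) < Q := by
    have : 0 < Q := by omega
    exact_mod_cast this
  set ℓ : ℝ := Real.log Q with hℓ
  have hnr : (39 : ℝ) ≤ n := by exact_mod_cast hn
  have hl7 : (1.9 : ℝ) ≤ ℓ := by
    have h1 : Real.log 7 ≤ ℓ := Real.log_le_log (by norm_num) (by exact_mod_cast hQ)
    have h2 : (1.9 : ℝ) ≤ Real.log 7 := by
      rw [Real.le_log_iff_exp_le (by norm_num)]
      have h3 : Real.exp 1.9 = Real.exp 1 ^ 2 * Real.exp (-0.1) := by
        rw [← Real.exp_nat_mul, ← Real.exp_add]; norm_num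
      have h4 : Real.exp (-0.1) ≤ 0.91 := by
        have h5 : (1.1 : ℝ) ≤ Real.exp 0.1 := by
          have := Real.add_one_le_exp (0.1 : ℝ); linarith
        rw [Real.exp_neg]
        calc (Real.exp 0.1)⁻¹ ≤ (1.1 : ℝ)⁻¹ := inv_anti₀ (by norm_num) h5
          _ ≤ 0.91 := by norm_num
      have h6 : Real.exp 1 ^ 2 ≤ 2.7182818286 ^ 2 := pow_le_pow_left₀ (Real.exp_pos 1).le Real.exp_one_lt_d9.le 2
      rw [h3]
      calc Real.exp 1 ^ 2 * Real.exp (-0.1) ≤ 2.7182818286 ^ 2 * 0.91 :=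
            mul_le_mul h6 h4 (Real.exp_pos _).le (by norm_num)
        _ ≤ 7 := by norm_num
    linarith
  have hln : ℓ ≤ 2.0795 * n := by
    have h1 : ℓ ≤ Real.log ((8 : ℝ) ^ n) := Real.log_le_log hQ0 (by exact_mod_cast hQn)
    rw [Real.log_pow] at h1
    have h2 : Real.log 8 = 3 * Real.log 2 := by
      rw [show (8 : ℝ) = 2 ^ 3 by norm_num, Real.log_pow]; norm_num
    have h3 := Real.log_two_lt_d9
    have h4 : Real.log 8 ≤ 2.0795 := by rw [h2]; linarith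
    have h5 : (n : ℝ) * Real.log 8 ≤ n * 2.0795 := mul_le_mul_of_nonneg_left h4 (by linarith)
    linarith
  obtain ⟨Y, hYdef⟩ : ∃ Y : ℕ, Y = ⌈ℓ⌉₊ := ⟨_, rfl⟩
  have hY1 : ℓ ≤ Y := by rw [hYdef]; exact Nat.le_ceil _
  have hY2 : (Y : ℝ) < ℓ + 1 := by rw [hYdef]; exact Nat.ceil_lt_add_one (by linarith)
  have hYn : (Y : ℝ) ≤ 2.11 * n := by linarith
  have hYn' : 100 * Y ≤ 211 * n := by
    have : (100 : ℝ) * Y ≤ 211 * n := by linarith
    exact_mod_cast this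
  have hYpos : 1 ≤ Y := by
    have : (0 : ℝ) < Y := by linarith
    exact_mod_cast this
  -- powers of two
  have hpow : ∀ k : ℕ, 39 ≤ k → 15000 * k ^ 2 * (k + 2) ≤ 2 ^ k := by
    intro k hk
    induction k, hk using Nat.le_induction with
    | base => norm_num
    | succ k hk ih =>
      have h1 : 39 * k ≤ k ^ 2 := by rw [sq]; exact Nat.mul_le_mul_right _ hk
      have h2 : 39 * k ^ 2 ≤ k ^ 3 := by rw [pow_succ k 2, mul_comm]; exact Nat.mul_le_mul_left _ hk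
      have h3 : 15000 * (k + 1) ^ 2 * (k + 1 + 2) ≤ 15000 * k ^ 2 * (k + 2) * 2 := by
        have e1 : 15000 * (k + 1) ^ 2 * (k + 1 + 2) = 15000 * k ^ 3 + 75000 * k ^ 2 + 105000 * k + 45000 := by
          ring
        have e2 : 15000 * k ^ 2 * (k + 2) * 2 = 30000 * k ^ 3 + 60000 * k ^ 2 := by ring
        rw [e1, e2]
        omega
      calc 15000 * (k + 1) ^ 2 * (k + 1 + 2) ≤ 15000 * k ^ 2 * (k + 2) * 2 := h3
        _ ≤ 2 ^ k * 2 := Nat.mul_le_mul_right _ ih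
        _ = 2 ^ (k + 1) := (pow_succ 2 k).symm
  have hp := hpow n hn
  have hsum' : 290 * Y * (12 * n) * (a + b) ≤ 4 ^ n := by
    calc 290 * Y * (12 * n) * (a + b) ≤ 290 * Y * (12 * n) * ((n + 2) * 2 ^ (n + 1)) :=
          Nat.mul_le_mul_left _ hsum
      _ = (6960 * Y) * (n * (n + 2)) * 2 ^ n := by ring
      _ ≤ (15000 * n) * (n * (n + 2)) * 2 ^ n := by
          apply Nat.mul_le_mul_right
          apply Nat.mul_le_mul_right
          omega
      _ = (15000 * n ^ 2 * (n + 2)) * 2 ^ n := by ring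
      _ ≤ 2 ^ n * 2 ^ n := Nat.mul_le_mul_right _ hp
      _ = 4 ^ n := by rw [← mul_pow]; norm_num
  have hM' : 145 * Y * (12 * n) ≤ a := by
    refine le_trans ?_ hM
    refine le_trans ?_ hp
    nlinarith [Nat.zero_le (n ^ 2), Nat.zero_le (n ^ 3)]
  have h := bk P Q a b Y n hP hPQ ha hb hab heq (by omega) hYpos hY1 hsum' hM'
  rw [← hℓ] at h
  push_cast at h
  have hY3 : (Y : ℝ) ^ 2 ≤ ℓ * (ℓ + 2.6) := by nlinarith
  have h5 : (b : ℝ) * ℓ < 3006720 * (n : ℝ) ^ 2 * (ℓ * (ℓ + 2.6)) + 1 := by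
    have h6 : 20880 * (Y : ℝ) ^ 2 * (12 * n) ^ 2 = 3006720 * (n : ℝ) ^ 2 * (Y : ℝ) ^ 2 := by ring
    rw [h6] at h
    have h7 : 3006720 * (n : ℝ) ^ 2 * (Y : ℝ) ^ 2 ≤ 3006720 * (n : ℝ) ^ 2 * (ℓ * (ℓ + 2.6)) :=
      mul_le_mul_of_nonneg_left hY3 (by positivity)
    linarith
  have hl0 : 0 < ℓ := by linarith
  have h8 : (b : ℝ) * ℓ < (3006720 * (n : ℝ) ^ 2 * (ℓ + 3) + 1) * ℓ := by nlinarith [sq_nonneg (n : ℝ)]
  exact lt_of_mul_lt_mul_right h8 hl0.le

end Pool.Agent.Q37.E545
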