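import Mathlib

/-!
A finite test which excludes solutions of `A ^ s = B ^ m + 2` with `S ∣ s`, `m` odd and `gcd (s, m) = 1`,
by congruences modulo small primes.
-/

set_option autoImplicit false

namespace Pool.Agent.Q37.E545

/-- the test for the exponents modulo `L` and the primes in `qs` -/
def tst (A B S L : ℕ) (qs : List ℕ) : Bool :=
  (List.range L).all fun s => (s % Nat.gcd S L != 0) ||
    (List.range L).all fun m => (m % 2 == 0) || (Nat.gcd (Nat.gcd s L) m != 1) ||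
      qs.any fun q => ((A % q) ^ (s + L)) % q != ((B % q) ^ (m + L) + 2) % q

/-- the moduli and primes used -/
def tab : List (ℕ × List ℕ) :=
  [(2, [3]), (4, [3, 5]), (6, [3, 7]), (12, [3, 5, 7, 13]), (10, [3, 11]), (16, [3, 5, 17]), (18, [3, 7, 19]),
    (22, [3, 23]), (28, [3, 5, 29]), (30, [3, 7, 11, 31]), (36, [3, 5, 7, 13, 19, 37])]

/-- the test -/
def chk (A B S : ℕ) : Bool := tab.any fun t => tst A B S t.1 t.2

lemma pow_mod_add (q L a : ℕ) (hq : q.Prime) (hL : q - 1 ∣ L) (n : ℕ) (hn : 1 ≤ n) :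
    a ^ (n + L) ≡ a ^ n [MOD q] := by
  have : Fact q.Prime := ⟨hq⟩
  rw [← ZMod.natCast_eq_natCast_iff]
  push_cast
  obtain ⟨k, rfl⟩ := hL
  by_cases ha : (a : ZMod q) = 0
  · rw [ha, zero_pow (by omega), zero_pow (by omega)]
  · rw [pow_add, pow_mul, ZMod.pow_card_sub_one_eq_one ha, one_pow, mul_one]

lemma pow_mod_red (q L a : ℕ) (hq : q.Prime) (hL : q - 1 ∣ L) (s : ℕ) (hs : 1 ≤ s) :
    a ^ s ≡ a ^ (s % L + L) [MOD q] := by
  have key : ∀ k : ℕ, 1 ≤ s % L + L * (k + 1) → a ^ (s % L + L * (k + 1)) ≡ a ^ (s % L + L) [MOD q] := by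
    intro k
    induction k with
    | zero => intro _; simp [Nat.ModEq]
    | succ k ih =>
      intro h
      by_cases h0 : 1 ≤ s % L + L * (k + 1)
      · have e : s % L + L * (k + 1 + 1) = (s % L + L * (k + 1)) + L := by ring
        rw [e]
        exact (pow_mod_add q L a hq hL _ h0).trans (ih h0)
      · exfalso
        have h1 : L * (k + 1) = 0 := by omega
        have h2 : L = 0 := by
          rcases Nat.mul_eq_zero.1 h1 with h | h
          · exact h
          · omega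
        subst h2
        omega
  rcases Nat.eq_zero_or_pos (s / L) with h0 | h0
  · have hs0 : s % L = s := by
      have := Nat.div_add_mod s L
      rw [h0, Nat.mul_zero, Nat.zero_add] at this
      exact this
    rw [hs0]
    exact (pow_mod_add q L a hq hL s hs).symm
  · obtain ⟨k, hk⟩ : ∃ k, s / L = k + 1 := ⟨s / L - 1, by omega⟩
    have e : s = s % L + L * (k + 1) := by
      rw [← hk]
      exact (Nat.mod_add_div s L).symm
    have h1 := key k (by omega)
    rw [← e] at h1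
    exact h1

lemma tst_sound (A B S L : ℕ) (qs : List ℕ) (hqs : ∀ q ∈ qs, q.Prime ∧ q - 1 ∣ L) (hL : 2 ∣ L) (hL0 : L ≠ 0)
    (ht : tst A B S L qs = true) (s m : ℕ) (hs : 1 ≤ s) (hm : Odd m) (hS : S ∣ s)
    (hg : Nat.Coprime s m) : A ^ s ≠ B ^ m + 2 := by
  intro h
  have hm1 : 1 ≤ m := hm.pos
  unfold tst at ht
  rw [List.all_eq_true] at ht
  have h1 := ht (s % L) (List.mem_range.2 (Nat.mod_lt _ (Nat.pos_of_ne_zero hL0)))
  rw [Bool.or_eq_true] at h1
  rcases h1 with h1 | h1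
  · have h2 : Nat.gcd S L ∣ s % L :=
      (Nat.dvd_mod_iff (Nat.gcd_dvd_right S L)).2 ((Nat.gcd_dvd_left S L).trans hS)
    have h3 : s % L % Nat.gcd S L = 0 := Nat.eq_zero_of_dvd_of_lt
      ((Nat.dvd_mod_iff dvd_rfl).2 h2) (Nat.mod_lt _ (Nat.gcd_pos_of_pos_right _ (Nat.pos_of_ne_zero hL0)))
    rw [h3] at h1
    simp at h1
  · rw [List.all_eq_true] at h1
    have h2 := h1 (m % L) (List.mem_range.2 (Nat.mod_lt _ (Nat.pos_of_ne_zero hL0)))
    rw [Bool.or_eq_true, Bool.or_eq_true] at h2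
    rcases h2 with (h2 | h2) | h2
    · have h3 : m % L % 2 = 0 := by simpa using h2
      rw [Nat.mod_mod_of_dvd _ hL] at h3
      rw [Nat.odd_iff] at hm
      omega
    · have h3 : Nat.gcd (Nat.gcd (s % L) L) (m % L) ≠ 1 := by simpa using h2
      apply h3
      have d1 : Nat.gcd (Nat.gcd (s % L) L) (m % L) ∣ L := (Nat.gcd_dvd_left _ _).trans (Nat.gcd_dvd_right _ _)
      have d2 : Nat.gcd (Nat.gcd (s % L) L) (m % L) ∣ s :=
        (Nat.dvd_mod_iff d1).1 ((Nat.gcd_dvd_left _ _).trans (Nat.gcd_dvd_left _ _))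
      have d3 : Nat.gcd (Nat.gcd (s % L) L) (m % L) ∣ m := (Nat.dvd_mod_iff d1).1 (Nat.gcd_dvd_right _ _)
      have d4 := Nat.dvd_gcd d2 d3
      rw [hg] at d4
      exact Nat.dvd_one.1 d4
    · rw [List.any_eq_true] at h2
      obtain ⟨q, hq, h3⟩ := h2
      have h4 : ((A % q) ^ (s % L + L)) % q ≠ ((B % q) ^ (m % L + L) + 2) % q := by simpa using h3
      apply h4
      obtain ⟨hqp, hqL⟩ := hqs q hq
      have hA : A ^ s ≡ (A % q) ^ (s % L + L) [MOD q] :=
        (pow_mod_red q L A hqp hqL s hs).trans ((Nat.mod_modEq A q).symm.pow _)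
      have hB : B ^ m ≡ (B % q) ^ (m % L + L) [MOD q] :=
        (pow_mod_red q L B hqp hqL m hm1).trans ((Nat.mod_modEq B q).symm.pow _)
      have : A ^ s ≡ B ^ m + 2 [MOD q] := by rw [h]
      exact (hA.symm.trans this).trans (hB.add_right 2)

lemma tab_ok : ∀ t ∈ tab, (∀ q ∈ t.2, q.Prime ∧ q - 1 ∣ t.1) ∧ 2 ∣ t.1 ∧ t.1 ≠ 0 := by
  intro t ht
  simp only [tab, List.mem_cons, List.mem_nil_iff, or_false] at ht
  rcases ht with rfl | rfl | rfl | rfl | rfl | rfl | rfl | rfl | rfl | rfl | rfl <;>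
    refine ⟨?_, by norm_num, by norm_num⟩ <;> intro q hq <;>
    simp only [List.mem_cons, List.mem_nil_iff, or_false] at hq <;>
    (try rcases hq with rfl | rfl | rfl | rfl | rfl | rfl) <;>
    (try rcases hq with rfl | rfl | rfl | rfl) <;>
    (try rcases hq with rfl | rfl | rfl) <;>
    (try rcases hq with rfl | rfl) <;>
    (try subst hq) <;>
    exact ⟨by norm_num, by norm_num⟩

lemma chk_sound (A B S : ℕ) (h : chk A B S = true) (s m : ℕ) (hs : 1 ≤ s) (hm : Odd m) (hS : S ∣ s)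
    (hg : Nat.Coprime s m) : A ^ s ≠ B ^ m + 2 := by
  unfold chk at h
  rw [List.any_eq_true] at h
  obtain ⟨t, ht, h1⟩ := h
  obtain ⟨h2, h3, h4⟩ := tab_ok t ht
  exact tst_sound A B S t.1 t.2 h2 h3 h4 h1 s m hs hm hS hg

end Pool.Agent.Q37.E545
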