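import Mathlib

/-!
A loop for finite tests.
-/

set_option autoImplicit false

namespace Pool.Agent.Q37.E545

/-- test `t` for `d`, `d + st`, `d + 2 st`, ... as long as `c` holds (false if the fuel does not suffice) -/
def loopG (c t : ℕ → Bool) (st : ℕ) : ℕ → ℕ → Bool
  | 0, _ => false
  | f + 1, d => match c d with
    | true => match t d with
      | true => loopG c t st f (d + st)
      | false => false
    | false => true

lemma loopG_sound (c t : ℕ → Bool) (st : ℕ) (hmono : ∀ d d', d ≤ d' → c d' = true → c d = true) :
    ∀ f d, loopG c t st f d = true → ∀ k, c (d + st * k) = true → t (d + st * k) = true := by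
  intro f
  induction f with
  | zero => intro d h; simp [loopG] at h
  | succ f ih =>
    intro d h k hk
    have hd : c d = true := hmono d _ (Nat.le_add_right _ _) hk
    cases hch : t d with
    | false => simp [loopG, hd, hch] at h
    | true =>
      have h' : loopG c t st f (d + st) = true := by simpa [loopG, hd, hch] using h
      rcases Nat.eq_zero_or_pos k with rfl | hk0
      · simpa using hch
      · obtain ⟨j, rfl⟩ : ∃ j, k = j + 1 := ⟨k - 1, by omega⟩
        have e1 : d + st * (j + 1) = (d + st) + st * j := by ring
        rw [e1] at hk ⊢
        exact ih _ h' j hk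

end Pool.Agent.Q37.E545
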