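import Mathlib
import Pool.Agent.Q37.E545.Chk
import Pool.Agent.Q37.E545.Loop

/-!
The finite list of cases of `(d ^ x + 1) ^ s = (d ^ (x + e) - 1) ^ m + 2`.
-/

set_option autoImplicit false

namespace Pool.Agent.Q37.E545

/-- the range of the parameters -/
def cond3 (x e d : ℕ) : Bool :=
  Nat.blt (x * d ^ x) (4 * (x + e) * 2 ^ 39) && Nat.blt (x * d ^ e) ((x + e) * 2 ^ 39)

lemma cond3_iff (x e d : ℕ) : cond3 x e d = true ↔
    x * d ^ x < 4 * (x + e) * 2 ^ 39 ∧ x * d ^ e < (x + e) * 2 ^ 39 := by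
  unfold cond3
  rw [Bool.and_eq_true, Nat.blt_eq, Nat.blt_eq]

lemma cond3_mono (x e d d' : ℕ) (h : d ≤ d') (hc : cond3 x e d' = true) : cond3 x e d = true := by
  rw [cond3_iff] at hc ⊢
  have h1 : x * d ^ x ≤ x * d' ^ x := Nat.mul_le_mul_left _ (Nat.pow_le_pow_left h x)
  have h2 : x * d ^ e ≤ x * d' ^ e := Nat.mul_le_mul_left _ (Nat.pow_le_pow_left h e)
  exact ⟨lt_of_le_of_lt h1 hc.1, lt_of_le_of_lt h2 hc.2⟩

/-- the test for one triple -/
def tst3 (x e d : ℕ) : Bool := chk (d ^ x + 1) (d ^ (x + e) - 1) (d ^ e)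

/-- all exponents `e` for a given `x` -/
def allx (x st f : ℕ) : Bool := (List.range' 1 43).all fun e => loopG (cond3 x e) (tst3 x e) st f st

end Pool.Agent.Q37.E545
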