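import Mathlib
import Pool.Agent.Q37.E545.Enum3

/-!
The cases with `x = 3` and `e = 2`.
-/

set_option autoImplicit false

namespace Pool.Agent.Q37.E545

theorem all_3_2 : loopG (cond3 3 2) (tst3 3 2) 2 8000 2 = true := by decide +kernel

end Pool.Agent.Q37.E545
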