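import Mathlib
import Pool.Agent.Q37.E545.Enum3

/-!
The cases with `x = 3` and `4 ≤ e`.
-/

set_option autoImplicit false

namespace Pool.Agent.Q37.E545

theorem all_3_4 : ((List.range' 4 40).all fun e => loopG (cond3 3 e) (tst3 3 e) 2 8000 2) = true := by decide +kernel

end Pool.Agent.Q37.E545
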