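import Mathlib
import Pool.Agent.Q37.E545.Enum3

/-!
The cases with `x = 2` and `x = 4`.
-/

set_option autoImplicit false

namespace Pool.Agent.Q37.E545

theorem all_2 : allx 2 1806 2000 = true := by decide +kernel

theorem all_4 : allx 4 2 8000 = true := by decide +kernel

end Pool.Agent.Q37.E545
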