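import Mathlib
import Pool.Agent.Q37.E545.Enum3

/-!
The cases with `5 ≤ x`.
-/

set_option autoImplicit false

namespace Pool.Agent.Q37.E545

theorem all_rest : ((List.range' 5 38).all fun x => allx x 2 8000) = true := by decide +kernel

end Pool.Agent.Q37.E545
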