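import Mathlib
import Pool.Agent.Q37.E545.Enum3A1
import Pool.Agent.Q37.E545.Enum3A2
import Pool.Agent.Q37.E545.Enum3A3
import Pool.Agent.Q37.E545.Enum3A4
import Pool.Agent.Q37.E545.Enum3B
import Pool.Agent.Q37.E545.Enum3C

/-!
All cases.
-/

set_option autoImplicit false

namespace Pool.Agent.Q37.E545

attribute [local irreducible] cond3 tst3

lemma range_all (x e d : ℕ) (hx : 3 ≤ x) (hx2 : x ≤ 42) (he : 1 ≤ e) (he2 : e ≤ 43) (hd : 2 ∣ d) (hd0 : d ≠ 0)
    (hc : cond3 x e d = true) : tst3 x e d = true := by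
  have h1 : loopG (cond3 x e) (tst3 x e) 2 8000 2 = true := by
    by_cases h3 : x = 3
    · subst h3
      by_cases e1 : e = 1
      · rw [e1]; exact all_3_1
      by_cases e2 : e = 2
      · rw [e2]; exact all_3_2
      by_cases e3 : e = 3
      · rw [e3]; exact all_3_3
      exact List.all_eq_true.1 all_3_4 e (by rw [List.mem_range'_1]; omega)
    · have hax : allx x 2 8000 = true := by
        by_cases h4 : x = 4
        · rw [h4]; exact all_4
        exact List.all_eq_true.1 all_rest x (by rw [List.mem_range'_1]; omega)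
      exact List.all_eq_true.1 hax e (by rw [List.mem_range'_1]; omega)
  obtain ⟨j, rfl⟩ := hd
  obtain ⟨i, rfl⟩ : ∃ i, j = i + 1 := ⟨j - 1, by omega⟩
  have e1 : 2 * (i + 1) = 2 + 2 * i := by ring
  rw [e1] at hc ⊢
  exact loopG_sound (cond3 x e) (tst3 x e) 2 (cond3_mono x e) 8000 2 h1 i hc

lemma range_two (e d : ℕ) (he : 1 ≤ e) (he2 : e ≤ 43) (hd : 1806 ∣ d) (hd0 : d ≠ 0)
    (hc : cond3 2 e d = true) : tst3 2 e d = true := by
  have h1 := List.all_eq_true.1 all_2 e (by rw [List.mem_range'_1]; omega)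
  obtain ⟨j, rfl⟩ := hd
  obtain ⟨i, rfl⟩ : ∃ i, j = i + 1 := ⟨j - 1, by omega⟩
  have e1 : 1806 * (i + 1) = 1806 + 1806 * i := by ring
  rw [e1] at hc ⊢
  exact loopG_sound (cond3 2 e) (tst3 2 e) 1806 (cond3_mono 2 e) 2000 1806 h1 i hc

end Pool.Agent.Q37.E545
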