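import Mathlib
import Pool.Agent.Q37.E545.Basic
import Pool.Agent.Q37.E545.Bk
import Pool.Agent.Q37.E545.Enum3D

/-!
The equation `(d ^ x + 1) ^ s - (d ^ y - 1) ^ m = 2`.
-/

set_option autoImplicit false

namespace Pool.Agent.Q37.E545

lemma add_two_le (B m : ℕ) (hB : 1 ≤ B) (hm : 2 ≤ m) : B ^ m + 2 ≤ (B + 1) ^ m := by
  obtain ⟨k, rfl⟩ : ∃ k, m = k + 2 := ⟨m - 2, by omega⟩
  have e1 : (B + 1) ^ (k + 2) = (B + 1) ^ k * (B + 1) ^ 2 := by ring
  have e2 : B ^ k ≤ (B + 1) ^ k := Nat.pow_le_pow_left (by omega) k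
  have e3 : B ^ k * (B + 1) ^ 2 = B ^ (k + 2) + B * B ^ k * 2 + B ^ k := by ring
  have h4 : 1 ≤ B ^ k := Nat.one_le_pow _ _ (by omega)
  have h5 : 1 ≤ B * B ^ k := by nlinarith
  have h6 : B ^ k * (B + 1) ^ 2 ≤ (B + 1) ^ k * (B + 1) ^ 2 := Nat.mul_le_mul_right _ e2
  rw [e1]
  omega

lemma analytic (D D' s m : ℕ) (hD : 1 ≤ D) (hD' : 2 ≤ D') (h : (D' - 1) ^ m < (D + 1) ^ s)
    (h2 : 2 * D ^ s ≤ D' ^ m) (hs : 4 * s ≤ D + 1) (hm : 4 * m ≤ D') : False := by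
  have hDr : (1 : ℝ) ≤ D := by exact_mod_cast hD
  have hDr' : (2 : ℝ) ≤ D' := by exact_mod_cast hD'
  have hsr : (4 : ℝ) * s ≤ D + 1 := by exact_mod_cast hs
  have hmr : (4 : ℝ) * m ≤ D' := by exact_mod_cast hm
  have b1 : (3 / 4 : ℝ) * ((D : ℝ) + 1) ^ s ≤ (D : ℝ) ^ s := by
    have h1 := one_add_mul_le_pow (a := -(1 / ((D : ℝ) + 1))) (by
      have : 1 / ((D : ℝ) + 1) ≤ 1 := by
        rw [div_le_one (by linarith)]; linarith
      linarith) s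
    have h3 : 1 + -(1 / ((D : ℝ) + 1)) = D / (D + 1) := by field_simp; ring
    rw [h3, div_pow, le_div_iff₀ (by positivity)] at h1
    have h4 : (3 / 4 : ℝ) ≤ 1 + s * -(1 / ((D : ℝ) + 1)) := by
      have : (s : ℝ) * (1 / ((D : ℝ) + 1)) ≤ 1 / 4 := by
        rw [mul_one_div, div_le_iff₀ (by linarith)]; linarith
      linarith
    exact (mul_le_mul_of_nonneg_right h4 (by positivity)).trans h1
  have b2 : (3 / 4 : ℝ) * (D' : ℝ) ^ m ≤ ((D' : ℝ) - 1) ^ m := by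
    have h1 := one_add_mul_le_pow (a := -(1 / (D' : ℝ))) (by
      have : 1 / (D' : ℝ) ≤ 1 := by
        rw [div_le_one (by linarith)]; linarith
      linarith) m
    have h3 : 1 + -(1 / (D' : ℝ)) = (D' - 1) / D' := by field_simp; ring
    rw [h3, div_pow, le_div_iff₀ (by positivity)] at h1
    have h4 : (3 / 4 : ℝ) ≤ 1 + m * -(1 / (D' : ℝ)) := by
      have : (m : ℝ) * (1 / (D' : ℝ)) ≤ 1 / 4 := by
        rw [mul_one_div, div_le_iff₀ (by linarith)]; linarith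
      linarith
    exact (mul_le_mul_of_nonneg_right h4 (by positivity)).trans h1
  have c1 : ((D' : ℝ) - 1) ^ m < ((D : ℝ) + 1) ^ s := by
    have : (((D' - 1 : ℕ) : ℝ)) ^ m < (((D + 1 : ℕ) : ℝ)) ^ s := by exact_mod_cast h
    push_cast [Nat.cast_sub (show 1 ≤ D' by omega)] at this
    exact this
  have c2 : (2 : ℝ) * (D : ℝ) ^ s ≤ (D' : ℝ) ^ m := by exact_mod_cast h2
  have c3 : (0 : ℝ) < ((D : ℝ) + 1) ^ s := by positivity
  nlinarith

/-- a prime `q` with `q - 1 ∣ s` which does not divide `A` divides `B + 1` -/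
lemma closure (q A B s m : ℕ) (hq : q.Prime) (hqs : q - 1 ∣ s) (hm : Odd m) (hg : Nat.Coprime s m)
    (h : A ^ s = B ^ m + 2) (hA : ¬ q ∣ A) : q ∣ B + 1 := by
  have : Fact q.Prime := ⟨hq⟩
  have hA0 : (A : ZMod q) ≠ 0 := by
    intro h0
    exact hA ((ZMod.natCast_eq_zero_iff A q).1 h0)
  have h1 : (A : ZMod q) ^ s = (B : ZMod q) ^ m + 2 := by exact_mod_cast congrArg (Nat.cast : ℕ → ZMod q) h
  obtain ⟨k, rfl⟩ := hqs
  rw [pow_mul, ZMod.pow_card_sub_one_eq_one hA0, one_pow] at h1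
  have h2 : (-(B : ZMod q)) ^ m = 1 := by
    rw [hm.neg_pow]
    linear_combination h1
  have hB0 : (-(B : ZMod q)) ≠ 0 := by
    intro h0
    rw [h0, zero_pow hm.pos.ne'] at h2
    exact zero_ne_one h2
  have o1 : orderOf (-(B : ZMod q)) ∣ m := orderOf_dvd_of_pow_eq_one h2
  have o2 : orderOf (-(B : ZMod q)) ∣ q - 1 := orderOf_dvd_of_pow_eq_one (ZMod.pow_card_sub_one_eq_one hB0)
  have o3 : orderOf (-(B : ZMod q)) ∣ 1 := by
    have := Nat.dvd_gcd (o2.trans (Dvd.intro k rfl)) o1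
    rwa [hg] at this
  have o4 : -(B : ZMod q) = 1 := orderOf_eq_one_iff.1 (Nat.dvd_one.1 o3)
  rw [← ZMod.natCast_eq_zero_iff]
  push_cast
  linear_combination -o4

end Pool.Agent.Q37.E545
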