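import Mathlib
import Pool.Agent.Q37.E545.Thr

/-!
The equation `(d ^ x + 1) ^ s - (d ^ y - 1) ^ m = 2`: reduction to finitely many cases.
-/

set_option autoImplicit false

namespace Pool.Agent.Q37.E545

lemma pow_cube (n : ℕ) (hn : 39 ≤ n) : 6500000 * n ^ 3 ≤ 2 ^ n := by
  induction n, hn using Nat.le_induction with
  | base => norm_num
  | succ k hk ih =>
    have h1 : 39 * k ≤ k ^ 2 := by rw [sq]; exact Nat.mul_le_mul_right _ hk
    have h2 : 39 * k ^ 2 ≤ k ^ 3 := by rw [pow_succ k 2, mul_comm]; exact Nat.mul_le_mul_left _ hk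
    have h3 : 6500000 * (k + 1) ^ 3 ≤ 6500000 * k ^ 3 * 2 := by
      have e1 : 6500000 * (k + 1) ^ 3 = 6500000 * k ^ 3 + 19500000 * k ^ 2 + 19500000 * k + 6500000 := by
        ring
      rw [e1]
      omega
    calc 6500000 * (k + 1) ^ 3 ≤ 6500000 * k ^ 3 * 2 := h3
      _ ≤ 2 ^ k * 2 := Nat.mul_le_mul_right _ ih
      _ = 2 ^ (k + 1) := (pow_succ 2 k).symm

lemma lt_two_pow_aux (k : ℕ) (hk : 6 ≤ k) : 16 * (k + 2) ≤ 2 ^ (k + 1) := by
  induction k, hk using Nat.le_induction with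
  | base => norm_num
  | succ k hk ih => rw [pow_succ]; omega

/-- the bound for the exponent `m` -/
lemma bound_m (d x e s m : ℕ) (hd : 2 ≤ d) (hx : 2 ≤ x) (he : 1 ≤ e) (hs : 1 ≤ s) (hm : 2 ≤ m)
    (h : (d ^ x + 1) ^ s = (d ^ (x + e) - 1) ^ m + 2) (hds : d ^ e ≤ s)
    (h6 : x * s < (x + e) * m) (h7 : x * d ^ x < 4 * ((x + e) * m)) : m < 2 ^ 39 := by
  by_contra hc
  push Not at hc
  obtain ⟨n, hn1, hn2⟩ : ∃ n, 2 ^ n ≤ m ∧ m < 2 ^ (n + 1) :=
    ⟨Nat.log 2 m, Nat.pow_log_le_self 2 (by omega), Nat.lt_pow_succ_log_self (by norm_num) m⟩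
  have hn : 39 ≤ n := by
    by_contra hn
    push Not at hn
    have : 2 ^ (n + 1) ≤ 2 ^ 39 := Nat.pow_le_pow_right (by norm_num) (by omega)
    omega
  -- sizes
  have hdx : 4 ≤ d ^ x := by
    calc 4 = 2 ^ 2 := by norm_num
      _ ≤ d ^ 2 := Nat.pow_le_pow_left hd 2
      _ ≤ d ^ x := Nat.pow_le_pow_right (by omega) hx
  have hdy : 2 * d ^ x ≤ d ^ (x + e) := by
    rw [pow_add, mul_comm]
    apply Nat.mul_le_mul_left
    calc 2 ≤ d := hd
      _ = d ^ 1 := (pow_one d).symm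
      _ ≤ d ^ e := Nat.pow_le_pow_right (by omega) he
  have hPQ : d ^ x + 1 ≤ d ^ (x + e) - 1 := by omega
  have hsm : m < s := by
    by_contra hc2
    push Not at hc2
    have h1 : (d ^ x + 1) ^ s ≤ (d ^ (x + e) - 1) ^ m :=
      (Nat.pow_le_pow_left hPQ s).trans (Nat.pow_le_pow_right (by omega) hc2)
    omega
  -- 2 s < (2 + e) m
  have h8 : 2 * s < (2 + e) * m := by
    have h9 : x * (s - m) < e * m := by
      rw [Nat.mul_sub]
      have : x * m ≤ x * s := Nat.mul_le_mul_left _ hsm.le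
      have e1 : (x + e) * m = x * m + e * m := by ring
      omega
    have h10 : 2 * (s - m) ≤ x * (s - m) := Nat.mul_le_mul_right _ hx
    have e2 : (2 + e) * m = 2 * m + e * m := by ring
    omega
  -- e < 2 n
  have hen : e < 2 * n := by
    by_contra hc3
    push Not at hc3
    obtain ⟨k, hk⟩ : ∃ k, e = n + k := ⟨e - n, by omega⟩
    have h11 : 2 ^ e ≤ d ^ e := Nat.pow_le_pow_left hd e
    have h12 : 2 * 2 ^ e < (2 + e) * 2 ^ (n + 1) := by
      calc 2 * 2 ^ e ≤ 2 * s := by omega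
        _ < (2 + e) * m := h8
        _ ≤ (2 + e) * 2 ^ (n + 1) := Nat.mul_le_mul_left _ hn2.le
    have h13 := lt_two_pow_aux k (by omega)
    have h14 : 2 * 2 ^ e = 2 ^ (k + 1) * 2 ^ n := by rw [hk]; ring
    have h15 : (2 + e) * 2 ^ (n + 1) = (2 * (2 + e)) * 2 ^ n := by ring
    rw [h14, h15] at h12
    have h16 := Nat.lt_of_mul_lt_mul_right h12
    omega
  have hs2 : s ≤ (n + 1) * m := by
    have h17 : (2 + e) * m ≤ (2 * n + 1) * m := Nat.mul_le_mul_right _ (by omega)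
    have e3 : (2 * n + 1) * m = 2 * (n * m) + m := by ring
    have e4 : (n + 1) * m = n * m + m := by ring
    omega
  have hdx2 : d ^ x ≤ 4 * (n + 1) * m := by
    by_contra hc4
    push Not at hc4
    have h18 : 2 * (d ^ x - 4 * m) ≤ x * (d ^ x - 4 * m) := Nat.mul_le_mul_right _ hx
    have h19 : x * (d ^ x - 4 * m) = x * d ^ x - x * (4 * m) := Nat.mul_sub _ _ _
    have e5 : 4 * ((x + e) * m) = x * (4 * m) + 4 * (e * m) := by ring
    have h20 : 4 * (e * m) ≤ 4 * ((2 * n) * m) := Nat.mul_le_mul_left _ (Nat.mul_le_mul_right _ hen.le)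
    have e6 : 4 * (n + 1) * m = 4 * (n * m) + 4 * m := by ring
    have e7 : 4 * ((2 * n) * m) = 8 * (n * m) := by ring
    omega
  have hQ8 : d ^ (x + e) ≤ 8 ^ n := by
    have h21 : d ^ (x + e) ≤ (4 * (n + 1) * m) * ((n + 1) * m) := by
      rw [pow_add]
      exact Nat.mul_le_mul hdx2 (hds.trans hs2)
    have h22 : m * m ≤ 2 ^ (n + 1) * 2 ^ (n + 1) := Nat.mul_le_mul hn2.le hn2.le
    have h23 : 16 * (n + 1) ^ 2 ≤ 2 ^ n := by
      have := pow_cube n hn
      nlinarith [Nat.zero_le (n ^ 2), Nat.zero_le (n ^ 3)]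
    calc d ^ (x + e) ≤ (4 * (n + 1) * m) * ((n + 1) * m) := h21
      _ = 4 * (n + 1) ^ 2 * (m * m) := by ring
      _ ≤ 4 * (n + 1) ^ 2 * (2 ^ (n + 1) * 2 ^ (n + 1)) := Nat.mul_le_mul_left _ h22
      _ = (16 * (n + 1) ^ 2) * (4 ^ n) := by
          have : (4 : ℕ) ^ n = 2 ^ n * 2 ^ n := by rw [← mul_pow]; norm_num
          rw [this]; ring
      _ ≤ 2 ^ n * 4 ^ n := Nat.mul_le_mul_right _ h23
      _ = 8 ^ n := by rw [← mul_pow]; norm_num
  have hQ7 : 7 ≤ d ^ (x + e) - 1 := by omega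
  have hsum : s + m ≤ (n + 2) * 2 ^ (n + 1) := by
    calc s + m ≤ (n + 1) * m + m := by omega
      _ = (n + 2) * m := by ring
      _ ≤ (n + 2) * 2 ^ (n + 1) := Nat.mul_le_mul_left _ hn2.le
  have key := bk2 (d ^ x + 1) (d ^ (x + e) - 1) s m n (by omega) hPQ hQ7 hs (by omega) h hn
    (by omega) hsum (by omega)
  -- contradiction
  have hnr : (39 : ℝ) ≤ n := by exact_mod_cast hn
  have hlog : Real.log ((d ^ (x + e) - 1 : ℕ) : ℝ) ≤ 2.0795 * n := by
    have h1 : Real.log ((d ^ (x + e) - 1 : ℕ) : ℝ) ≤ Real.log ((8 : ℝ) ^ n) := by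
      apply Real.log_le_log
      · have : 0 < d ^ (x + e) - 1 := by omega
        exact_mod_cast this
      · have : d ^ (x + e) - 1 ≤ 8 ^ n := by omega
        exact_mod_cast this
    rw [Real.log_pow] at h1
    have h2 : Real.log 8 = 3 * Real.log 2 := by
      rw [show (8 : ℝ) = 2 ^ 3 by norm_num, Real.log_pow]; norm_num
    have h3 := Real.log_two_lt_d9
    have h4 : Real.log 8 ≤ 2.0795 := by rw [h2]; linarith
    have h5 : (n : ℝ) * Real.log 8 ≤ n * 2.0795 := mul_le_mul_of_nonneg_left h4 (by linarith)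
    linarith
  have hpc : (6500000 : ℝ) * (n : ℝ) ^ 3 ≤ 2 ^ n := by exact_mod_cast pow_cube n hn
  have hmr : (2 : ℝ) ^ n ≤ m := by exact_mod_cast hn1
  have h30 : (3006720 : ℝ) * (n : ℝ) ^ 2 * (Real.log ((d ^ (x + e) - 1 : ℕ) : ℝ) + 3) ≤
      3006720 * (n : ℝ) ^ 2 * (2.157 * n) := by
    apply mul_le_mul_of_nonneg_left _ (by positivity)
    linarith
  nlinarith [sq_nonneg (n : ℝ), pow_pos (show (0 : ℝ) < n by linarith) 3]

end Pool.Agent.Q37.E545
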