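import Mathlib
import Pool.Agent.Q37.E545.Thr2

/-!
The equation `(d ^ x + 1) ^ s - (d ^ y - 1) ^ m = 2` has no solutions.
-/

set_option autoImplicit false

namespace Pool.Agent.Q37.E545

lemma two_dvd_pow_aux (d x : ℕ) (hd : 2 ∣ d) (hx : 2 ≤ x) : 4 ∣ d ^ x := by
  obtain ⟨k, rfl⟩ : ∃ k, x = k + 2 := ⟨x - 2, by omega⟩
  obtain ⟨j, rfl⟩ := hd
  exact ⟨(2 * j) ^ k * j ^ 2, by ring⟩

lemma four_dvd_pow_aux (z s : ℕ) (hz : 2 ∣ z) (hs : 2 ≤ s) : 4 ∣ z ^ s := two_dvd_pow_aux z s hz hs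

lemma e3_even (d x y s m : ℕ) (hs : 2 ≤ s) (hm : 2 ≤ m)
    (h : (d ^ x + 1) ^ s = (d ^ y - 1) ^ m + 2) : 2 ∣ d := by
  by_contra hd
  have hdo : Odd d := Nat.odd_iff.2 (by omega)
  have h1 : 2 ∣ d ^ x + 1 := (hdo.pow.add_one).two_dvd
  have h2 : 2 ∣ d ^ y - 1 := by
    have := (hdo.pow (n := y))
    obtain ⟨k, hk⟩ := this
    exact ⟨k, by omega⟩
  have h3 := four_dvd_pow_aux _ s h1 hs
  have h4 := four_dvd_pow_aux _ m h2 hm
  omega

lemma e3_odd (d x y s m : ℕ) (hd : 2 ∣ d) (hx : 2 ≤ x) (hy : 2 ≤ y) (hd2 : 2 ≤ d)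
    (h : (d ^ x + 1) ^ s = (d ^ y - 1) ^ m + 2) : Odd m := by
  by_contra hm
  rw [Nat.not_odd_iff_even] at hm
  obtain ⟨a, ha⟩ := two_dvd_pow_aux d x hd hx
  obtain ⟨b, hb⟩ := two_dvd_pow_aux d y hd hy
  have hb0 : 1 ≤ d ^ y := Nat.one_le_pow _ _ (by omega)
  have h1 : ((d ^ x + 1 : ℕ) : ZMod 4) ^ s = ((d ^ y - 1 : ℕ) : ZMod 4) ^ m + 2 := by
    exact_mod_cast congrArg (Nat.cast : ℕ → ZMod 4) h
  have h2 : ((d ^ x + 1 : ℕ) : ZMod 4) = 1 := by
    rw [ha]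
    push_cast
    rw [show (4 : ZMod 4) = 0 by decide]
    ring
  have h3 : ((d ^ y - 1 : ℕ) : ZMod 4) = -1 := by
    rw [Nat.cast_sub hb0, hb]
    push_cast
    rw [show (4 : ZMod 4) = 0 by decide]
    ring
  rw [h2, h3, one_pow, hm.neg_one_pow] at h1
  revert h1
  decide

lemma e3_lt (d x y s m : ℕ) (hd : 2 ∣ d) (hd2 : 2 ≤ d) (hy : 2 ≤ y) (hxy : x ≠ y) (hm : Odd m)
    (h : (d ^ x + 1) ^ s = (d ^ y - 1) ^ m + 2) : x < y := by
  by_contra hc
  have hlt : y < x := by omega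
  have hy1 : 1 ≤ d ^ y := Nat.one_le_pow _ _ (by omega)
  have h1 : ((d : ℤ) ^ (y + 1)) ∣ ((d : ℤ) ^ x + 1) ^ s - 1 := by
    have e1 : (d : ℤ) ^ x ∣ ((d : ℤ) ^ x + 1) ^ s - 1 := by
      have := sub_dvd_pow_sub_pow ((d : ℤ) ^ x + 1) 1 s
      simpa using this
    exact (pow_dvd_pow _ (by omega)).trans e1
  have h2 : ((d : ℤ) ^ x + 1) ^ s = ((d : ℤ) ^ y - 1) ^ m + 2 := by
    have := congrArg (Nat.cast : ℕ → ℤ) h
    push_cast [Nat.cast_sub hy1] at this
    exact this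
  have h3 : (d : ℤ) ^ (y + 1) ∣ ((d : ℤ) ^ y - 1) ^ m + 1 - m * (d : ℤ) ^ y := by
    have := sq_dvd_odd ((d : ℤ) ^ y) m hm
    rw [← pow_mul] at this
    exact (pow_dvd_pow _ (by omega)).trans this
  have h4 : (d : ℤ) ^ (y + 1) ∣ m * (d : ℤ) ^ y := by
    have e : (m : ℤ) * (d : ℤ) ^ y = (((d : ℤ) ^ x + 1) ^ s - 1) - (((d : ℤ) ^ y - 1) ^ m + 1 - m * (d : ℤ) ^ y) := by
      rw [h2]; ring
    rw [e]
    exact dvd_sub h1 h3
  have h5 : d ^ y * d ∣ d ^ y * m := by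
    have : (d : ℤ) ^ y * d ∣ (d : ℤ) ^ y * m := by rw [← pow_succ, mul_comm _ (m : ℤ)]; exact h4
    exact_mod_cast this
  have h6 : d ∣ m := Nat.dvd_of_mul_dvd_mul_left (by omega) h5
  have h7 : 2 ∣ m := hd.trans h6
  obtain ⟨k, hk⟩ := hm
  omega

lemma e3_dvd (d x e s m : ℕ) (hd : 2 ∣ d) (hd2 : 2 ≤ d) (hx : 2 ≤ x) (hm : Odd m) (hs : 1 ≤ s)
    (h : (d ^ x + 1) ^ s = (d ^ (x + e) - 1) ^ m + 2) : d ^ e ∣ s := by
  have hy1 : 1 ≤ d ^ (x + e) := Nat.one_le_pow _ _ (by omega)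
  have h1 : d ^ (x + e) ∣ (d ^ x + 1) ^ s - 1 := by
    have e1 : (d ^ x + 1) ^ s - 1 = (d ^ (x + e) - 1) ^ m + 1 ^ m := by rw [h, one_pow]; omega
    rw [e1]
    have := Odd.nat_add_dvd_pow_add_pow (d ^ (x + e) - 1) 1 hm
    rwa [Nat.sub_add_cancel hy1] at this
  have hne : (d ^ x + 1) ^ s - 1 ≠ 0 := by
    have : (d ^ x + 1) ^ 1 ≤ (d ^ x + 1) ^ s := Nat.pow_le_pow_right (by omega) hs
    have h0 : 1 ≤ d ^ x := Nat.one_le_pow _ _ (by omega)
    omega
  apply dvd_of_padic _ _ (by omega) _ (by have := Nat.pow_pos (n := e) (show 0 < d by omega); omega)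
  intro p hp hpd
  have : Fact p.Prime := ⟨hp⟩
  have hpd' : p ∣ d := hp.dvd_of_dvd_pow hpd
  have h2 := padic_one_add p (d ^ x) s hp (by have := Nat.pow_pos (n := x) (show 0 < d by omega); omega)
    (hpd'.trans (dvd_pow_self d (by omega))) (fun _ => two_dvd_pow_aux d x hd hx) (by omega)
  have h3 : padicValNat p (d ^ (x + e)) ≤ padicValNat p ((d ^ x + 1) ^ s - 1) :=
    (padicValNat_dvd_iff_le hne).1 ((pow_padicValNat_dvd).trans h1)
  rw [h2, pow_add, padicValNat.mul (by have := Nat.pow_pos (n := x) (show 0 < d by omega); omega)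
    (by have := Nat.pow_pos (n := e) (show 0 < d by omega); omega)] at h3
  omega

lemma not_dvd_sq_add_one (q d : ℕ) (hq : q = 3 ∨ q = 7 ∨ q = 43) : ¬ q ∣ d ^ 2 + 1 := by
  intro h
  have hp : q.Prime := by rcases hq with rfl | rfl | rfl <;> norm_num
  have : Fact q.Prime := ⟨hp⟩
  have h1 : ((d ^ 2 + 1 : ℕ) : ZMod q) = 0 := (ZMod.natCast_eq_zero_iff _ _).2 h
  have h2 : IsSquare (-1 : ZMod q) := ⟨d, by push_cast at h1; linear_combination -h1⟩
  have h3 := (ZMod.exists_sq_eq_neg_one_iff (p := q)).1 h2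
  rcases hq with rfl | rfl | rfl <;> omega

/-- `(E₃)` has no solutions -/
theorem e3_none (d x y s m : ℕ) (hd2 : 2 ≤ d) (hx : 2 ≤ x) (hy : 2 ≤ y) (hs : 2 ≤ s) (hm2 : 2 ≤ m) (hxy : x ≠ y) :
    (d ^ x + 1) ^ s ≠ (d ^ y - 1) ^ m + 2 := by
  intro h
  have hd := e3_even d x y s m hs hm2 h
  have hm := e3_odd d x y s m hd hx hy hd2 h
  have hlt := e3_lt d x y s m hd hd2 hy hxy hm h
  obtain ⟨e, rfl⟩ : ∃ e, y = x + e := ⟨y - x, by omega⟩
  have he : 1 ≤ e := by omega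
  have hds := e3_dvd d x e s m hd hd2 hx hm (by omega) h
  have hdse : d ^ e ≤ s := Nat.le_of_dvd (by omega) hds
  have hdx : 4 ≤ d ^ x := by
    calc 4 = 2 ^ 2 := by norm_num
      _ ≤ d ^ 2 := Nat.pow_le_pow_left hd2 2
      _ ≤ d ^ x := Nat.pow_le_pow_right (by omega) hx
  have hdxy : d ^ x < d ^ (x + e) := Nat.pow_lt_pow_right (by omega) (by omega)
  have hcop : Nat.Coprime s m := coprime_of_eq (d ^ x + 1) (d ^ (x + e) - 1) s m (by omega) (by omega) (by omega) h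
  have h6 : x * s < (x + e) * m := by
    have h1 : d ^ (x * s) < d ^ ((x + e) * m) := by
      calc d ^ (x * s) = (d ^ x) ^ s := pow_mul _ _ _
        _ < (d ^ x + 1) ^ s := Nat.pow_lt_pow_left (by omega) (by omega)
        _ = (d ^ (x + e) - 1) ^ m + 2 := h
        _ ≤ (d ^ (x + e) - 1 + 1) ^ m := add_two_le _ _ (by omega) hm2
        _ = d ^ ((x + e) * m) := by rw [Nat.sub_add_cancel (by omega), ← pow_mul]
    exact (Nat.pow_lt_pow_iff_right (by omega)).1 h1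
  have h2D : 2 * (d ^ x) ^ s ≤ (d ^ (x + e)) ^ m := by
    rw [← pow_mul, ← pow_mul]
    calc 2 * d ^ (x * s) ≤ d * d ^ (x * s) := Nat.mul_le_mul_right _ hd2
      _ = d ^ (x * s + 1) := by rw [pow_succ]; ring
      _ ≤ d ^ ((x + e) * m) := Nat.pow_le_pow_right (by omega) h6
  have h7 : x * d ^ x < 4 * ((x + e) * m) := by
    by_contra hc
    push Not at hc
    apply analytic (d ^ x) (d ^ (x + e)) s m (by omega) (by omega) (by omega) h2D
    · by_contra hc2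
      push Not at hc2
      have h3 : x * (d ^ x + 1) ≤ x * (4 * s) := Nat.mul_le_mul_left _ (by omega)
      have e1 : x * (d ^ x + 1) = x * d ^ x + x := by ring
      have e2 : x * (4 * s) = 4 * (x * s) := by ring
      omega
    · by_contra hc2
      push Not at hc2
      have h3 : x * d ^ x ≤ (x + e) * d ^ x := Nat.mul_le_mul_right _ (by omega)
      have h4 : (x + e) * d ^ x < (x + e) * (4 * m) := Nat.mul_lt_mul_of_pos_left (by omega) (by omega)
      have e2 : (x + e) * (4 * m) = 4 * ((x + e) * m) := by ring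
      omega
  have hm39 := bound_m d x e s m hd2 hx he (by omega) hm2 h hdse h6 h7
  have hc3 : cond3 x e d = true := by
    rw [cond3_iff]
    have h8 : (x + e) * m < (x + e) * 2 ^ 39 := Nat.mul_lt_mul_of_pos_left hm39 (by omega)
    have h9 : x * d ^ e ≤ x * s := Nat.mul_le_mul_left _ hdse
    have e1 : 4 * (x + e) * 2 ^ 39 = 4 * ((x + e) * 2 ^ 39) := by ring
    constructor
    · omega
    · omega
  have he43 : e ≤ 43 := by
    by_contra hc
    have h8 := ((cond3_iff x e d).1 hc3).2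
    have h9 : x * 2 ^ e ≤ x * d ^ e := Nat.mul_le_mul_left _ (Nat.pow_le_pow_left hd2 e)
    obtain ⟨k, rfl⟩ : ∃ k, e = 44 + k := ⟨e - 44, by omega⟩
    have h10 : k + 32 ≤ 2 ^ k * 32 := by
      have : k < 2 ^ k := Nat.lt_two_pow_self
      omega
    have h11 : x * 2 ^ (44 + k) = x * (2 ^ k * 32) * 2 ^ 39 := by rw [pow_add]; ring
    rw [h11] at h9
    have h12 := Nat.lt_of_mul_lt_mul_right (lt_of_le_of_lt h9 h8)
    have h13 : x * (k + 32) ≤ x * (2 ^ k * 32) := Nat.mul_le_mul_left _ h10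
    have h14 : 2 * (k + 31) ≤ x * (k + 31) := Nat.mul_le_mul_right _ hx
    have e1 : x * (k + 32) = x * (k + 31) + x := by ring
    omega
  have hx42 : x ≤ 42 := by
    by_contra hc
    have h8 := ((cond3_iff x e d).1 hc3).1
    have h9 : x * 2 ^ x ≤ x * d ^ x := Nat.mul_le_mul_left _ (Nat.pow_le_pow_left hd2 x)
    have h10 : x * 2 ^ 43 ≤ x * 2 ^ x := Nat.mul_le_mul_left _ (Nat.pow_le_pow_right (by norm_num) (by omega))
    omega
  have htst : tst3 x e d = true := by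
    rcases Nat.lt_or_ge x 3 with hx3 | hx3
    · have hx2 : x = 2 := by omega
      subst hx2
      have hes : d ∣ s := (dvd_pow_self d (by omega)).trans hds
      have h2s : 2 ∣ s := hd.trans hes
      have hstep : ∀ q : ℕ, q = 3 ∨ q = 7 ∨ q = 43 → q - 1 ∣ s → q ∣ d := by
        intro q hq hqs
        have hp : q.Prime := by rcases hq with rfl | rfl | rfl <;> norm_num
        have h1 := closure q (d ^ 2 + 1) (d ^ (2 + e) - 1) s m hp hqs hm hcop h (not_dvd_sq_add_one q d hq)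
        rw [Nat.sub_add_cancel (by omega)] at h1
        exact hp.dvd_of_dvd_pow h1
      have h3 : 3 ∣ d := hstep 3 (by norm_num) (by simpa using h2s)
      have h6s : 6 ∣ s := by
        have := h3.trans hes
        omega
      have h7d : 7 ∣ d := hstep 7 (by norm_num) (by simpa using h6s)
      have h42s : 42 ∣ s := by
        have := h7d.trans hes
        omega
      have h43d : 43 ∣ d := hstep 43 (by norm_num) (by simpa using h42s)
      have h1806 : 1806 ∣ d := by omega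
      exact range_two e d he he43 h1806 (by omega) hc3
    · exact range_all x e d hx3 hx42 he he43 hd (by omega) hc3
  exact chk_sound (d ^ x + 1) (d ^ (x + e) - 1) (d ^ e) htst s m (by omega) hm hds hcop h

end Pool.Agent.Q37.E545
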