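import Mathlib
import Pool.Agent.Q37.E545.E3

/-!
The equation `((d ^ x + 1) ^ s + 1) ^ t - d ^ y = 2` has no solutions.
-/

set_option autoImplicit false

namespace Pool.Agent.Q37.E545

/-- `(E₁)` has no solutions -/
theorem e1_none (d x y s t : ℕ) (hd2 : 2 ≤ d) (hx : 2 ≤ x) (hy : 2 ≤ y) (hs : 2 ≤ s) (ht : 2 ≤ t) :
    ((d ^ x + 1) ^ s + 1) ^ t ≠ d ^ y + 2 := by
  intro h
  rcases Nat.even_or_odd d with hd | hd
  · have h1 : 2 ∣ (d ^ x + 1) ^ s + 1 := by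
      have h2 : Even (d ^ x) := hd.pow_of_ne_zero (by omega)
      have h3 : Odd ((d ^ x + 1) ^ s) := (h2.add_one).pow
      exact (h3.add_one).two_dvd
    have h2 := four_dvd_pow_aux _ t h1 ht
    have h3 := four_dvd_pow_aux d y hd.two_dvd hy
    omega
  · set N : ℕ := d ^ x + 1 with hN
    have hN2 : 2 ∣ N := (hd.pow.add_one).two_dvd
    -- N ^ 2 ∣ d ^ y + 1
    have h1 : (N : ℤ) ^ 2 ∣ (d : ℤ) ^ y + 1 := by
      have e1 : (d : ℤ) ^ y + 1 = ((N : ℤ) ^ s + 1) ^ t - 1 ^ t := by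
        have := congrArg (Nat.cast : ℕ → ℤ) h
        push_cast at this
        rw [one_pow]
        linarith
      rw [e1]
      have e2 := sub_dvd_pow_sub_pow ((N : ℤ) ^ s + 1) 1 t
      rw [add_sub_cancel_right] at e2
      exact (pow_dvd_pow _ hs).trans e2
    have h2 : ((d : ℤ) ^ x + 1) ∣ (d : ℤ) ^ y + 1 := by
      have e1 : ((N : ℕ) : ℤ) = (d : ℤ) ^ x + 1 := by rw [hN]; push_cast; ring
      rw [← e1]
      exact (dvd_pow_self _ (by norm_num)).trans h1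
    obtain ⟨q, hq, rfl⟩ := dvd_of_pow_add_one d x y hd2 (by omega) h2
    have h3 : (d : ℤ) ^ (x * q) + 1 = ((N : ℤ) - 1) ^ q + 1 := by
      rw [pow_mul, hN]; push_cast; ring
    rw [h3] at h1
    have h4 := sq_dvd_odd (N : ℤ) q hq
    have h5 : (N : ℤ) ^ 2 ∣ q * N := by
      have e : (q : ℤ) * N = (((N : ℤ) - 1) ^ q + 1) - (((N : ℤ) - 1) ^ q + 1 - q * N) := by ring
      rw [e]
      exact dvd_sub h1 h4
    have h6 : N * N ∣ N * q := by
      have : (N : ℤ) * N ∣ N * q := by rw [← sq, mul_comm _ (q : ℤ)]; exact h5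
      exact_mod_cast this
    have h7 : N ∣ q := Nat.dvd_of_mul_dvd_mul_left (by omega) h6
    have h8 : 2 ∣ q := hN2.trans h7
    obtain ⟨k, hk⟩ := hq
    omega

end Pool.Agent.Q37.E545
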