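import Mathlib
import Pool.Agent.Q37.E545.Chk
import Pool.Agent.Q37.E545.Loop

/-!
The finite list of cases of `(d ^ x) ^ M = ((d ^ x - 1) ^ s - 1) ^ t + 2`.
-/

set_option autoImplicit false

namespace Pool.Agent.Q37.E545

/-- the range of the parameters -/
def cond2 (x s d : ℕ) : Bool := Nat.blt (2 * ((d ^ x - 1) / 2) ^ (s - 1)) (2 ^ 44)

/-- a divisor of `M` -/
def m02 (u s : ℕ) : ℕ := if u % 4 = 0 then u ^ (s - 1) else 2 * (u / 2) ^ (s - 1)

/-- the test for one triple -/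
def tst2 (x s d : ℕ) : Bool := chk (d ^ x) ((d ^ x - 1) ^ s - 1) (m02 (d ^ x - 1) s)

lemma cond2_iff (x s d : ℕ) : cond2 x s d = true ↔ 2 * ((d ^ x - 1) / 2) ^ (s - 1) < 2 ^ 44 := by
  unfold cond2
  rw [Nat.blt_eq]

lemma cond2_mono (x s d d' : ℕ) (h : d ≤ d') (hc : cond2 x s d' = true) : cond2 x s d = true := by
  rw [cond2_iff] at hc ⊢
  refine lt_of_le_of_lt ?_ hc
  apply Nat.mul_le_mul_left
  apply Nat.pow_le_pow_left
  apply Nat.div_le_div_right
  exact Nat.sub_le_sub_right (Nat.pow_le_pow_left h x) 1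

end Pool.Agent.Q37.E545
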