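import Mathlib
import Pool.Agent.Q37.E545.Enum2

/-!
The cases with `x = 2` and `s = 3`.
-/

set_option autoImplicit false

namespace Pool.Agent.Q37.E545

theorem all2_2_3 : loopG (cond2 2 3) (tst2 2 3) 2 2000 3 = true := by decide +kernel

end Pool.Agent.Q37.E545
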