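import Mathlib
import Pool.Agent.Q37.E545.Enum2

/-!
The cases with `s > 3`.
-/

set_option autoImplicit false

namespace Pool.Agent.Q37.E545

theorem all2_x_s : ((List.range' 2 13).all fun x => (List.range' 2 9).all fun k =>
    loopG (cond2 x (2 * k + 1)) (tst2 x (2 * k + 1)) 2 2000 3) = true := by
  decide +kernel

end Pool.Agent.Q37.E545
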