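import Mathlib
import Pool.Agent.Q37.E545.Enum2A
import Pool.Agent.Q37.E545.Enum2B
import Pool.Agent.Q37.E545.Enum2C

/-!
All cases.
-/

set_option autoImplicit false

namespace Pool.Agent.Q37.E545

attribute [local irreducible] cond2 tst2

lemma range2 (x s d : ℕ) (hx : 2 ≤ x) (hx2 : x ≤ 14) (hs : 3 ≤ s) (hs2 : s ≤ 22) (hso : Odd s) (hd : Odd d)
    (hd3 : 3 ≤ d) (hc : cond2 x s d = true) : tst2 x s d = true := by
  have h1 : loopG (cond2 x s) (tst2 x s) 2 2000 3 = true := by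
    obtain ⟨k, rfl⟩ := hso
    by_cases hk : k = 1
    · subst hk
      by_cases h2 : x = 2
      · subst h2; exact all2_2_3
      · exact List.all_eq_true.1 all2_x_3 x (by rw [List.mem_range'_1]; omega)
    · exact List.all_eq_true.1 (List.all_eq_true.1 all2_x_s x (by rw [List.mem_range'_1]; omega)) k
        (by rw [List.mem_range'_1]; omega)
  obtain ⟨j, rfl⟩ := hd
  obtain ⟨i, rfl⟩ : ∃ i, j = i + 1 := ⟨j - 1, by omega⟩
  have e1 : 2 * (i + 1) + 1 = 3 + 2 * i := by ring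
  rw [e1] at hc ⊢
  exact loopG_sound (cond2 x s) (tst2 x s) 2 (cond2_mono x s) 2000 3 h1 i hc

end Pool.Agent.Q37.E545
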