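import Mathlib
import Pool.Agent.Q37.E545.E3
import Pool.Agent.Q37.E545.Enum2D

/-!
The equation `d ^ y - ((d ^ x - 1) ^ s - 1) ^ t = 2` has no solutions.
-/

set_option autoImplicit false

namespace Pool.Agent.Q37.E545

/-- the orbit of `(1, 1)` under `(a, z) ↦ (2 a + 3 z, a + 2 z)` modulo 153 -/
def orb : List (ℕ × ℕ) :=
  [(1, 1), (5, 3), (19, 11), (71, 41), (112, 0), (71, 112), (19, 142), (5, 150), (1, 152), (152, 152),
    (148, 150), (134, 142), (82, 112), (41, 0), (82, 41), (134, 11), (148, 3), (152, 1)]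

lemma orb_step : ∀ p ∈ orb, ((2 * p.1 + 3 * p.2) % 153, (p.1 + 2 * p.2) % 153) ∈ orb := by
  decide

lemma pell3 : ∀ Z A : ℕ, 1 ≤ Z → A ^ 2 + 2 = 3 * Z ^ 2 → (A % 153, Z % 153) ∈ orb := by
  intro Z
  induction Z using Nat.strong_induction_on with
  | _ Z ih =>
    intro A hZ h
    rcases Nat.lt_or_ge Z 2 with hZ2 | hZ2
    · have hZ1 : Z = 1 := by omega
      subst hZ1
      have hA : A = 1 := by
        have : A < 2 := by nlinarith
        interval_cases A <;> omega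
      subst hA
      decide
    · have h1 : Z < A := by
        by_contra hc
        push Not at hc
        have : A ^ 2 ≤ Z ^ 2 := Nat.pow_le_pow_left hc 2
        nlinarith
      have h2 : A < 2 * Z := by
        by_contra hc
        push Not at hc
        have : (2 * Z) ^ 2 ≤ A ^ 2 := Nat.pow_le_pow_left hc 2
        nlinarith
      have h3 : 3 * Z ≤ 2 * A := by
        by_contra hc
        push Not at hc
        have : (2 * A) ^ 2 < (3 * Z) ^ 2 := Nat.pow_lt_pow_left hc (by norm_num)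
        nlinarith
      have h4 : (2 * A - 3 * Z) ^ 2 + 2 = 3 * (2 * Z - A) ^ 2 := by
        zify [h3, h2.le] at h ⊢
        linear_combination h
      have h5 := ih (2 * Z - A) (by omega) (2 * A - 3 * Z) (by omega) h4
      have h6 := orb_step _ h5
      have e1 : (2 * ((2 * A - 3 * Z) % 153) + 3 * ((2 * Z - A) % 153)) % 153 = A % 153 := by
        omega
      have e2 : ((2 * A - 3 * Z) % 153 + 2 * ((2 * Z - A) % 153)) % 153 = Z % 153 := by
        omega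
      simp only at h6
      rwa [e1, e2] at h6

lemma orb_nine : ∀ p ∈ orb, p.2 % 9 = 0 → p.2 % 17 = 0 := by decide

lemma three_pow (y A : ℕ) (h : 3 ^ y = A ^ 2 + 2) : A ≤ 5 := by
  have hy : Odd y := by
    by_contra hy
    rw [Nat.not_odd_iff_even] at hy
    obtain ⟨k, hk⟩ := hy
    rw [hk, ← two_mul, mul_comm, pow_mul] at h
    have h1 : A < 3 ^ k := by
      by_contra hc
      push Not at hc
      have : (3 ^ k) ^ 2 ≤ A ^ 2 := Nat.pow_le_pow_left hc 2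
      omega
    have h2 : (A + 1) ^ 2 ≤ (3 ^ k) ^ 2 := Nat.pow_le_pow_left h1 2
    have e : (A + 1) ^ 2 = A ^ 2 + 2 * A + 1 := by ring
    have h3 : A = 0 := by omega
    subst h3
    have h4 : 3 ^ k < 2 := by
      by_contra hc
      push Not at hc
      have : 2 ^ 2 ≤ (3 ^ k) ^ 2 := Nat.pow_le_pow_left hc 2
      omega
    have h5 : 0 < 3 ^ k := by positivity
    have h6 : 3 ^ k = 1 := by omega
    rw [h6] at h
    omega
  obtain ⟨k, rfl⟩ := hy
  have h1 : A ^ 2 + 2 = 3 * (3 ^ k) ^ 2 := by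
    rw [← h, pow_succ, pow_mul, mul_comm 2 k |> fun _ => pow_right_comm 3 2 k]
    ring
  rcases Nat.lt_or_ge k 2 with hk | hk
  · have h2 : 3 ^ (2 * k + 1) ≤ 3 ^ 3 := Nat.pow_le_pow_right (by norm_num) (by omega)
    rw [h] at h2
    nlinarith
  · exfalso
    have h2 := orb_nine _ (pell3 (3 ^ k) A (Nat.one_le_pow _ _ (by norm_num)) h1)
    obtain ⟨j, rfl⟩ : ∃ j, k = j + 2 := ⟨k - 2, by omega⟩
    have h3 : 3 ^ (j + 2) % 9 = 0 := by rw [pow_succ, pow_succ]; omega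
    have h4 : 3 ^ (j + 2) % 17 = 0 := by
      have := h2 (by simp only; omega)
      simp only at this
      omega
    have h5 : 17 ∣ 3 ^ (j + 2) := Nat.dvd_of_mod_eq_zero h4
    have h6 : 17 ∣ 3 := Nat.Prime.dvd_of_dvd_pow (by norm_num) h5
    omega

lemma pow_mod_dvd (d x y : ℕ) : ((d : ℤ) ^ x - 1) ∣ (d : ℤ) ^ y - (d : ℤ) ^ (y % x) := by
  have e : (d : ℤ) ^ y - (d : ℤ) ^ (y % x) = (((d : ℤ) ^ x) ^ (y / x) - 1 ^ (y / x)) * (d : ℤ) ^ (y % x) := by
    rw [sub_mul, ← pow_mul, ← pow_add, Nat.div_add_mod, one_pow, one_mul]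
  rw [e]
  exact Dvd.dvd.mul_right (sub_dvd_pow_sub_pow _ _ _) _


lemma e2_odd_d (d x y s t : ℕ) (hd2 : 2 ≤ d) (hx : 2 ≤ x) (hy : 2 ≤ y) (ht : 2 ≤ t)
    (h : d ^ y = ((d ^ x - 1) ^ s - 1) ^ t + 2) : Odd d := by
  by_contra hd
  rw [Nat.not_odd_iff_even] at hd
  have h1 : Odd (d ^ x - 1) := by
    obtain ⟨k, hk⟩ := hd.pow_of_ne_zero (n := x) (by omega)
    have : 0 < d ^ x := Nat.pow_pos (by omega)
    exact ⟨k - 1, by omega⟩
  have h2 : 2 ∣ (d ^ x - 1) ^ s - 1 := by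
    obtain ⟨k, hk⟩ := h1.pow (n := s)
    exact ⟨k, by omega⟩
  have h3 := four_dvd_pow_aux _ t h2 ht
  have h4 := four_dvd_pow_aux d y hd.two_dvd hy
  omega

lemma e2_odd_s (d x y s t : ℕ) (hd3 : 3 ≤ d) (hx : 2 ≤ x) (hy : 2 ≤ y) (ht : 2 ≤ t)
    (h : d ^ y = ((d ^ x - 1) ^ s - 1) ^ t + 2) : Odd s := by
  by_contra hs
  rw [Nat.not_odd_iff_even] at hs
  have hx1 : 1 ≤ d ^ x := Nat.one_le_pow _ _ (by omega)
  have h1 : ((d ^ x - 1 : ℕ) : ZMod d) = -1 := by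
    rw [Nat.cast_sub hx1]
    push_cast
    rw [ZMod.natCast_self, zero_pow (by omega)]
    ring
  have h2 : 1 ≤ (d ^ x - 1) ^ s := by
    apply Nat.one_le_pow
    have : 3 ^ 1 ≤ d ^ x := (Nat.pow_le_pow_left hd3 1).trans (Nat.pow_le_pow_right (by omega) (by omega))
    omega
  have h3 : (((d ^ x - 1) ^ s - 1 : ℕ) : ZMod d) = 0 := by
    rw [Nat.cast_sub h2, Nat.cast_pow, h1, hs.neg_one_pow]
    simp
  have h4 : ((d ^ y : ℕ) : ZMod d) = ((((d ^ x - 1) ^ s - 1) ^ t + 2 : ℕ) : ZMod d) := by rw [h]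
  rw [Nat.cast_add, Nat.cast_pow, Nat.cast_pow, h3, ZMod.natCast_self, zero_pow (by omega), zero_pow (by omega),
    zero_add] at h4
  have h5 : d ∣ 2 := (ZMod.natCast_eq_zero_iff 2 d).1 h4.symm
  have := Nat.le_of_dvd (by norm_num) h5
  omega

/-- congruence modulo `u = d ^ x - 1` -/
lemma e2_mod (d x y s t : ℕ) (hd3 : 3 ≤ d) (hx : 2 ≤ x) (hs : 1 ≤ s)
    (h : d ^ y = ((d ^ x - 1) ^ s - 1) ^ t + 2) :
    ((d : ℤ) ^ x - 1) ∣ (d : ℤ) ^ (y % x) - ((-1) ^ t + 2) := by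
  have hx1 : 1 ≤ d ^ x := Nat.one_le_pow _ _ (by omega)
  have hu : 1 ≤ d ^ x - 1 := by
    have : 3 ^ 1 ≤ d ^ x := (Nat.pow_le_pow_left hd3 1).trans (Nat.pow_le_pow_right (by omega) (by omega))
    omega
  have h2 : 1 ≤ (d ^ x - 1) ^ s := Nat.one_le_pow _ _ hu
  have h1 : (d : ℤ) ^ y = (((d : ℤ) ^ x - 1) ^ s - 1) ^ t + 2 := by
    have := congrArg (Nat.cast : ℕ → ℤ) h
    push_cast [Nat.cast_sub h2, Nat.cast_sub hx1] at this
    exact this
  have h3 : ((d : ℤ) ^ x - 1) ∣ (((d : ℤ) ^ x - 1) ^ s - 1) ^ t - (-1) ^ t := by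
    have e := sub_dvd_pow_sub_pow (((d : ℤ) ^ x - 1) ^ s - 1) (-1) t
    rw [show ((d : ℤ) ^ x - 1) ^ s - 1 - -1 = ((d : ℤ) ^ x - 1) ^ s by ring] at e
    exact (dvd_pow_self _ (by omega)).trans e
  have h4 := pow_mod_dvd d x y
  have e : (d : ℤ) ^ (y % x) - ((-1) ^ t + 2) = ((((d : ℤ) ^ x - 1) ^ s - 1) ^ t - (-1) ^ t) -
      ((d : ℤ) ^ y - (d : ℤ) ^ (y % x)) := by
    rw [h1]; ring
  rw [e]
  exact dvd_sub h3 h4

lemma e2_odd_t (d x y s t : ℕ) (hd3 : 3 ≤ d) (hx : 2 ≤ x) (hs : 3 ≤ s) (ht : 2 ≤ t)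
    (h : d ^ y = ((d ^ x - 1) ^ s - 1) ^ t + 2) : Odd t := by
  by_contra hto
  rw [Nat.not_odd_iff_even] at hto
  have h1 := e2_mod d x y s t hd3 hx (by omega) h
  rw [hto.neg_one_pow] at h1
  set r := y % x with hr
  have hrx : r < x := Nat.mod_lt _ (by omega)
  have hdx : 9 ≤ d ^ x := by
    calc 9 = 3 ^ 2 := by norm_num
      _ ≤ d ^ 2 := Nat.pow_le_pow_left hd3 2
      _ ≤ d ^ x := Nat.pow_le_pow_right (by omega) hx
  have hdxz : (9 : ℤ) ≤ (d : ℤ) ^ x := by exact_mod_cast hdx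
  have hd_eq : d = 3 := by
    rcases Nat.eq_zero_or_pos r with h0 | h0
    · exfalso
      rw [h0, pow_zero] at h1
      have := Int.le_of_dvd (by norm_num) ((dvd_neg).2 h1)
      norm_num at this
      linarith
    · have hr1 : d ^ r * 3 ≤ d ^ x := by
        calc d ^ r * 3 ≤ d ^ r * d := Nat.mul_le_mul_left _ hd3
          _ = d ^ (r + 1) := (pow_succ _ _).symm
          _ ≤ d ^ x := Nat.pow_le_pow_right (by omega) hrx
      have hr2 : 3 ≤ d ^ r := by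
        calc 3 ≤ d := hd3
          _ = d ^ 1 := (pow_one d).symm
          _ ≤ d ^ r := Nat.pow_le_pow_right (by omega) h0
      have hr1z : (d : ℤ) ^ r * 3 ≤ (d : ℤ) ^ x := by exact_mod_cast hr1
      have hr2z : (3 : ℤ) ≤ (d : ℤ) ^ r := by exact_mod_cast hr2
      have h2 : (d : ℤ) ^ r - (1 + 2) = 0 := by
        apply Int.eq_zero_of_dvd_of_nonneg_of_lt _ _ h1
        · linarith
        · linarith
      have h3 : d ^ r = 3 := by
        have : (d : ℤ) ^ r = 3 := by linarith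
        exact_mod_cast this
      have h4 : d ≤ d ^ r := by
        calc d = d ^ 1 := (pow_one d).symm
          _ ≤ d ^ r := Nat.pow_le_pow_right (by omega) h0
      omega
  subst hd_eq
  obtain ⟨k, hk⟩ := hto
  have h5 : 3 ^ y = (((3 ^ x - 1) ^ s - 1) ^ k) ^ 2 + 2 := by
    rw [h, ← pow_mul]
    congr 2
    omega
  have h6 := three_pow y _ h5
  have h7 : 8 ^ 3 ≤ (3 ^ x - 1) ^ s := by
    calc 8 ^ 3 ≤ (3 ^ x - 1) ^ 3 := Nat.pow_le_pow_left (by omega) 3
      _ ≤ (3 ^ x - 1) ^ s := Nat.pow_le_pow_right (by omega) hs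
  have h8 : (3 ^ x - 1) ^ s - 1 ≤ ((3 ^ x - 1) ^ s - 1) ^ k := by
    calc (3 ^ x - 1) ^ s - 1 = ((3 ^ x - 1) ^ s - 1) ^ 1 := (pow_one _).symm
      _ ≤ ((3 ^ x - 1) ^ s - 1) ^ k := Nat.pow_le_pow_right (by omega) (by omega)
  omega

lemma e2_dvd_y (d x y s t : ℕ) (hd3 : 3 ≤ d) (hx : 2 ≤ x) (hs : 3 ≤ s) (ht : Odd t)
    (h : d ^ y = ((d ^ x - 1) ^ s - 1) ^ t + 2) : x ∣ y := by
  have h1 := e2_mod d x y s t hd3 hx (by omega) h
  rw [ht.neg_one_pow] at h1
  set r := y % x with hr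
  have hrx : r < x := Nat.mod_lt _ (by omega)
  have hr1 : d ^ r < d ^ x := Nat.pow_lt_pow_right (by omega) hrx
  have hr0 : 1 ≤ d ^ r := Nat.one_le_pow _ _ (by omega)
  have hr1z : (d : ℤ) ^ r < (d : ℤ) ^ x := by exact_mod_cast hr1
  have hr0z : (1 : ℤ) ≤ (d : ℤ) ^ r := by exact_mod_cast hr0
  have h2 : (d : ℤ) ^ r - (-1 + 2) = 0 := by
    apply Int.eq_zero_of_dvd_of_nonneg_of_lt _ _ h1
    · linarith
    · linarith
  have h3 : d ^ r = 1 := by
    have : (d : ℤ) ^ r = 1 := by linarith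
    exact_mod_cast this
  apply Nat.dvd_of_mod_eq_zero
  rw [← hr]
  by_contra hr00
  have : d ^ 1 ≤ d ^ r := Nat.pow_le_pow_right (by omega) (by omega)
  rw [pow_one] at this
  omega

/-- the divisor of the exponent -/
lemma e2_m0 (u M s t : ℕ) (hu : 2 ∣ u) (hu2 : 8 ≤ u) (hs : 3 ≤ s) (ht : Odd t) (hM : M ≠ 0)
    (h : (u + 1) ^ M = (u ^ s - 1) ^ t + 2) : m02 u s ∣ M := by
  have hus : 1 ≤ u ^ s := Nat.one_le_pow _ _ (by omega)
  have h1 : u ^ s ∣ (u + 1) ^ M - 1 := by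
    have e1 : (u + 1) ^ M - 1 = (u ^ s - 1) ^ t + 1 ^ t := by rw [h, one_pow]; omega
    rw [e1]
    have := Odd.nat_add_dvd_pow_add_pow (u ^ s - 1) 1 ht
    rwa [Nat.sub_add_cancel hus] at this
  have hne : (u + 1) ^ M - 1 ≠ 0 := by
    have : (u + 1) ^ 1 ≤ (u + 1) ^ M := Nat.pow_le_pow_right (by omega) (by omega)
    omega
  have hval : ∀ p : ℕ, p.Prime → p ∣ u → (p = 2 → 4 ∣ u) → (s - 1) * padicValNat p u ≤ padicValNat p M := by
    intro p hp hpu hp4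
    have : Fact p.Prime := ⟨hp⟩
    have h2 := padic_one_add p u M hp (by omega) hpu hp4 hM
    have h3 : padicValNat p (u ^ s) ≤ padicValNat p ((u + 1) ^ M - 1) :=
      (padicValNat_dvd_iff_le hne).1 ((pow_padicValNat_dvd).trans h1)
    rw [h2, padicValNat.pow] at h3
    obtain ⟨k, rfl⟩ : ∃ k, s = k + 1 := ⟨s - 1, by omega⟩
    rw [Nat.add_sub_cancel]
    have e : (k + 1) * padicValNat p u = k * padicValNat p u + padicValNat p u := by ring
    omega
  unfold m02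
  split_ifs with h4
  · apply dvd_of_padic _ _ hM _ (by have := Nat.pow_pos (n := s - 1) (show 0 < u by omega); omega)
    intro p hp hpd
    have : Fact p.Prime := ⟨hp⟩
    have hpu : p ∣ u := hp.dvd_of_dvd_pow hpd
    rw [padicValNat.pow]
    exact hval p hp hpu (fun _ => Nat.dvd_of_mod_eq_zero h4)
  · -- `M` is even
    have hMe : 2 ∣ M := by
      have h5 : (u : ℤ) ^ 2 ∣ (1 + (u : ℤ)) ^ M - 1 := by
        have h6 : ((u ^ s : ℕ) : ℤ) ∣ (((u + 1) ^ M - 1 : ℕ) : ℤ) := by exact_mod_cast h1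
        rw [Nat.cast_sub (Nat.one_le_pow _ _ (by omega))] at h6
        push_cast at h6
        rw [add_comm (u : ℤ) 1] at h6
        exact (pow_dvd_pow _ (by omega)).trans h6
      have h7 := sq_dvd_one (u : ℤ) M
      have h8 : (u : ℤ) ^ 2 ∣ M * u := by
        have e : (M : ℤ) * u = ((1 + (u : ℤ)) ^ M - 1) - ((1 + (u : ℤ)) ^ M - 1 - M * u) := by ring
        rw [e]
        exact dvd_sub h5 h7
      have h9 : u * u ∣ u * M := by
        have : (u : ℤ) * u ∣ u * M := by rw [← sq, mul_comm _ (M : ℤ)]; exact h8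
        exact_mod_cast this
      exact hu.trans (Nat.dvd_of_mul_dvd_mul_left (by omega) h9)
    obtain ⟨w, rfl⟩ := hu
    rw [Nat.mul_div_cancel_left w (by norm_num)]
    have hwo : ¬ 2 ∣ w := by omega
    have hw1 : 1 ≤ w := by omega
    apply dvd_of_padic _ _ hM _ (by have := Nat.pow_pos (n := s - 1) (show 0 < w by omega); omega)
    intro p hp hpd
    have : Fact p.Prime := ⟨hp⟩
    have hw0 : w ^ (s - 1) ≠ 0 := by have := Nat.pow_pos (n := s - 1) (show 0 < w by omega); omega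
    rw [padicValNat.mul (by norm_num) hw0, padicValNat.pow]
    rcases hp.eq_two_or_odd' with h2 | hodd
    · subst h2
      rw [padicValNat.self (by norm_num), padicValNat.eq_zero_of_not_dvd hwo, mul_zero, add_zero]
      exact (one_le_padicValNat_of_dvd hM hMe)
    · have hp2 : ¬ p ∣ 2 := by
        intro hc
        have := (Nat.prime_dvd_prime_iff_eq hp Nat.prime_two).1 hc
        subst this
        exact absurd hodd (by decide)
      have hpw : p ∣ w := by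
        rcases hp.dvd_mul.1 hpd with hc | hc
        · exact absurd hc hp2
        · exact hp.dvd_of_dvd_pow hc
      have h5 := hval p hp (hpw.trans (Dvd.intro_left 2 rfl)) (fun hc => by
        subst hc
        exact absurd hodd (by decide))
      rw [padicValNat.mul (by norm_num) (by omega), padicValNat.eq_zero_of_not_dvd hp2, zero_add] at h5
      rw [padicValNat.eq_zero_of_not_dvd hp2, zero_add]
      exact h5


lemma pow_four (n : ℕ) (hn : 44 ≤ n) : 2500000 * n ^ 4 ≤ 2 ^ n := by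
  induction n, hn using Nat.le_induction with
  | base => norm_num
  | succ k hk ih =>
    have h1 : 44 * k ≤ k ^ 2 := by rw [sq]; exact Nat.mul_le_mul_right _ hk
    have h2 : 44 * k ^ 2 ≤ k ^ 3 := by rw [pow_succ k 2, mul_comm]; exact Nat.mul_le_mul_left _ hk
    have h4 : 44 * k ^ 3 ≤ k ^ 4 := by rw [pow_succ k 3, mul_comm]; exact Nat.mul_le_mul_left _ hk
    have h3 : 2500000 * (k + 1) ^ 4 ≤ 2500000 * k ^ 4 * 2 := by
      have e1 : 2500000 * (k + 1) ^ 4 = 2500000 * k ^ 4 + 10000000 * k ^ 3 + 15000000 * k ^ 2 +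
          10000000 * k + 2500000 := by
        ring
      rw [e1]
      omega
    calc 2500000 * (k + 1) ^ 4 ≤ 2500000 * k ^ 4 * 2 := h3
      _ ≤ 2 ^ k * 2 := Nat.mul_le_mul_right _ ih
      _ = 2 ^ (k + 1) := (pow_succ 2 k).symm

lemma e2_bound (w M s t : ℕ) (hw : 4 ≤ w) (hs : 3 ≤ s) (ht : 2 ≤ t)
    (h : (2 * w + 1) ^ M = ((2 * w) ^ s - 1) ^ t + 2) (hm0 : 2 * w ^ (s - 1) ≤ M) : M < 2 ^ 44 := by
  by_contra hc
  push Not at hc
  obtain ⟨n, hn1, hn2⟩ : ∃ n, 2 ^ n ≤ M ∧ M < 2 ^ (n + 1) :=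
    ⟨Nat.log 2 M, Nat.pow_log_le_self 2 (by omega), Nat.lt_pow_succ_log_self (by norm_num) M⟩
  have hn : 44 ≤ n := by
    by_contra hn
    push Not at hn
    have : 2 ^ (n + 1) ≤ 2 ^ 44 := Nat.pow_le_pow_right (by norm_num) (by omega)
    omega
  obtain ⟨k, rfl⟩ : ∃ k, s = k + 3 := ⟨s - 3, by omega⟩
  have hk2 : k + 3 - 1 = k + 2 := by omega
  rw [hk2] at hm0
  -- sizes
  have hus : 8 ^ 3 ≤ (2 * w) ^ (k + 3) := by
    calc 8 ^ 3 ≤ (2 * w) ^ 3 := Nat.pow_le_pow_left (by omega) 3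
      _ ≤ (2 * w) ^ (k + 3) := Nat.pow_le_pow_right (by omega) (by omega)
  have hPQ : 2 * w + 1 ≤ (2 * w) ^ (k + 3) - 1 := by
    have h1 : (2 * w) ^ 2 ≤ (2 * w) ^ (k + 3) := Nat.pow_le_pow_right (by omega) (by omega)
    have h2 : 8 * (2 * w) ≤ (2 * w) ^ 2 := by rw [sq]; exact Nat.mul_le_mul_right _ (by omega)
    omega
  have hMst : M < (k + 3) * t := by
    have h1 : (2 * w) ^ M < (2 * w) ^ ((k + 3) * t) := by
      calc (2 * w) ^ M < (2 * w + 1) ^ M := Nat.pow_lt_pow_left (by omega) (by omega)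
        _ = ((2 * w) ^ (k + 3) - 1) ^ t + 2 := h
        _ ≤ ((2 * w) ^ (k + 3) - 1 + 1) ^ t := add_two_le _ _ (by omega) ht
        _ = (2 * w) ^ ((k + 3) * t) := by rw [Nat.sub_add_cancel (by omega), ← pow_mul]
    exact (Nat.pow_lt_pow_iff_right (by omega)).1 h1
  have htM : t < M := by
    by_contra hc2
    push Not at hc2
    have h1 : (2 * w + 1) ^ M ≤ ((2 * w) ^ (k + 3) - 1) ^ t :=
      (Nat.pow_le_pow_left hPQ M).trans (Nat.pow_le_pow_right (by omega) hc2)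
    omega
  have hkn : 2 * (k + 3) ≤ n + 2 := by
    have h1 : 2 ^ (2 * (k + 2)) < 2 ^ (n + 1) := by
      calc 2 ^ (2 * (k + 2)) = 4 ^ (k + 2) := by rw [pow_mul]; norm_num
        _ ≤ w ^ (k + 2) := Nat.pow_le_pow_left hw _
        _ ≤ M := by omega
        _ < 2 ^ (n + 1) := hn2
    have := (Nat.pow_lt_pow_iff_right (by norm_num)).1 h1
    omega
  have hus2 : (2 * w) ^ (k + 3) ≤ 2 * M ^ 2 := by
    have h1 : 2 ^ (k + 2) ≤ w ^ (k + 1) := by
      calc 2 ^ (k + 2) ≤ 2 ^ (2 * (k + 1)) := Nat.pow_le_pow_right (by norm_num) (by omega)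
        _ = 4 ^ (k + 1) := by rw [pow_mul]; norm_num
        _ ≤ w ^ (k + 1) := Nat.pow_le_pow_left hw _
    calc (2 * w) ^ (k + 3) = 2 * (2 ^ (k + 2) * w ^ (k + 3)) := by rw [mul_pow]; ring
      _ ≤ 2 * (w ^ (k + 1) * w ^ (k + 3)) := Nat.mul_le_mul_left _ (Nat.mul_le_mul_right _ h1)
      _ = 2 * (w ^ (k + 2)) ^ 2 := by ring
      _ ≤ 2 * M ^ 2 := Nat.mul_le_mul_left _ (Nat.pow_le_pow_left (by omega) 2)
  have hus4 : (2 * w) ^ (k + 3) ≤ 8 * 4 ^ n := by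
    calc (2 * w) ^ (k + 3) ≤ 2 * M ^ 2 := hus2
      _ ≤ 2 * (2 ^ (n + 1)) ^ 2 := Nat.mul_le_mul_left _ (Nat.pow_le_pow_left hn2.le 2)
      _ = 8 * 4 ^ n := by
          rw [show (4 : ℕ) = 2 ^ 2 by norm_num, ← pow_mul, ← pow_mul]; ring
  have hus8 : (2 * w) ^ (k + 3) ≤ 8 ^ n := by
    refine hus4.trans ?_
    calc 8 * 4 ^ n ≤ 2 ^ n * 4 ^ n := by
          apply Nat.mul_le_mul_right
          calc 8 = 2 ^ 3 := by norm_num
            _ ≤ 2 ^ n := Nat.pow_le_pow_right (by norm_num) (by omega)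
      _ = 8 ^ n := by rw [← mul_pow]; norm_num
  have hsum : M + t ≤ (n + 2) * 2 ^ (n + 1) := by
    calc M + t ≤ 2 * 2 ^ (n + 1) := by omega
      _ ≤ (n + 2) * 2 ^ (n + 1) := Nat.mul_le_mul_right _ (by omega)
  have key := bk2 (2 * w + 1) ((2 * w) ^ (k + 3) - 1) M t n (by omega) hPQ (by omega) (by omega) (by omega) h
    (by omega) (by omega) hsum hn1
  have hnr : (44 : ℝ) ≤ n := by exact_mod_cast hn
  have hlog : Real.log (((2 * w) ^ (k + 3) - 1 : ℕ) : ℝ) ≤ 1.3863 * n + 2.0795 := by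
    have h1 : Real.log (((2 * w) ^ (k + 3) - 1 : ℕ) : ℝ) ≤ Real.log (8 * (4 : ℝ) ^ n) := by
      apply Real.log_le_log
      · have : 0 < (2 * w) ^ (k + 3) - 1 := by omega
        exact_mod_cast this
      · have : (2 * w) ^ (k + 3) - 1 ≤ 8 * 4 ^ n := by omega
        exact_mod_cast this
    rw [Real.log_mul (by norm_num) (by positivity), Real.log_pow] at h1
    have h2 : Real.log 8 = 3 * Real.log 2 := by
      rw [show (8 : ℝ) = 2 ^ 3 by norm_num, Real.log_pow]; norm_num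
    have h3 : Real.log 4 = 2 * Real.log 2 := by
      rw [show (4 : ℝ) = 2 ^ 2 by norm_num, Real.log_pow]; norm_num
    have h4 := Real.log_two_lt_d9
    have h5 : (n : ℝ) * Real.log 4 ≤ n * 1.3863 := by
      apply mul_le_mul_of_nonneg_left _ (by linarith)
      rw [h3]; linarith
    linarith
  have hpc : (2500000 : ℝ) * (n : ℝ) ^ 4 ≤ 2 ^ n := by exact_mod_cast pow_four n hn
  have hmr : (2 : ℝ) ^ n ≤ M := by exact_mod_cast hn1
  have hMr : (M : ℝ) < (k + 3) * t := by exact_mod_cast hMst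
  have hkr : 2 * ((k : ℝ) + 3) ≤ n + 2 := by exact_mod_cast hkn
  have htr : (0 : ℝ) < t := by
    have : 0 < t := by omega
    exact_mod_cast this
  have h30 : (3006720 : ℝ) * (n : ℝ) ^ 2 * (Real.log (((2 * w) ^ (k + 3) - 1 : ℕ) : ℝ) + 3) ≤
      3006720 * (n : ℝ) ^ 2 * (1.502 * n) := by
    apply mul_le_mul_of_nonneg_left _ (by positivity)
    linarith
  have h31 : (t : ℝ) < 4516100 * (n : ℝ) ^ 3 := by
    have h32 : (1 : ℝ) ≤ (n : ℝ) ^ 3 := one_le_pow₀ (by linarith)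
    have e : (3006720 : ℝ) * (n : ℝ) ^ 2 * (1.502 * n) = 4516093.44 * (n : ℝ) ^ 3 := by ring
    linarith
  have h33 : ((k : ℝ) + 3) * t ≤ (0.5228 * n) * (4516100 * (n : ℝ) ^ 3) := by
    apply mul_le_mul _ h31.le htr.le (by linarith)
    linarith
  have e : (0.5228 * (n : ℝ)) * (4516100 * (n : ℝ) ^ 3) = 2361017.08 * (n : ℝ) ^ 4 := by ring
  have h34 : (0 : ℝ) < (n : ℝ) ^ 4 := by positivity
  linarith

/-- `(E₂)` has no solutions -/
theorem e2_none (d x y s t : ℕ) (hd2 : 2 ≤ d) (hx : 2 ≤ x) (hy : 2 ≤ y) (hs2 : 2 ≤ s) (ht2 : 2 ≤ t) :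
    d ^ y ≠ ((d ^ x - 1) ^ s - 1) ^ t + 2 := by
  intro h
  have hd := e2_odd_d d x y s t hd2 hx hy ht2 h
  have hd3 : 3 ≤ d := by
    obtain ⟨k, hk⟩ := hd
    omega
  have hso := e2_odd_s d x y s t hd3 hx hy ht2 h
  have hs3 : 3 ≤ s := by
    obtain ⟨k, hk⟩ := hso
    omega
  have hto := e2_odd_t d x y s t hd3 hx hs3 ht2 h
  obtain ⟨M, rfl⟩ := e2_dvd_y d x y s t hd3 hx hs3 hto h
  have hdx : 9 ≤ d ^ x := by
    calc 9 = 3 ^ 2 := by norm_num
      _ ≤ d ^ 2 := Nat.pow_le_pow_left hd3 2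
      _ ≤ d ^ x := Nat.pow_le_pow_right (by omega) hx
  have hM : M ≠ 0 := by
    rintro rfl
    omega
  obtain ⟨w, hw⟩ : ∃ w, d ^ x - 1 = 2 * w := by
    obtain ⟨k, hk⟩ := hd.pow (n := x)
    exact ⟨k, by omega⟩
  have hw4 : 4 ≤ w := by omega
  have hdx2 : d ^ x = 2 * w + 1 := by omega
  have h' : (2 * w + 1) ^ M = ((2 * w) ^ s - 1) ^ t + 2 := by
    rw [← hdx2, ← hw, ← pow_mul]
    exact h
  have hm0 := e2_m0 (2 * w) M s t (Dvd.intro w rfl) (by omega) hs3 hto hM h'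
  have hm0w : 2 * w ^ (s - 1) ≤ m02 (2 * w) s := by
    unfold m02
    split_ifs with h4
    · rw [mul_pow]
      apply Nat.mul_le_mul_right
      calc 2 = 2 ^ 1 := by norm_num
        _ ≤ 2 ^ (s - 1) := Nat.pow_le_pow_right (by norm_num) (by omega)
    · rw [Nat.mul_div_cancel_left w (by norm_num)]
  have hm0M : m02 (2 * w) s ≤ M := Nat.le_of_dvd (by omega) hm0
  have hM44 := e2_bound w M s t hw4 hs3 ht2 h' (by omega)
  have hc : cond2 x s d = true := by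
    rw [cond2_iff, hw, Nat.mul_div_cancel_left w (by norm_num)]
    omega
  have hw43 : w ^ (s - 1) < 2 ^ 43 := by omega
  have hs22 : s ≤ 22 := by
    by_contra hc2
    have h1 : 4 ^ 22 ≤ w ^ (s - 1) :=
      (Nat.pow_le_pow_left hw4 22).trans (Nat.pow_le_pow_right (by omega) (by omega))
    norm_num at h1 hw43
    omega
  have hx14 : x ≤ 14 := by
    by_contra hc2
    have h1 : 3 ^ 15 ≤ d ^ x := (Nat.pow_le_pow_left hd3 15).trans (Nat.pow_le_pow_right (by omega) (by omega))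
    have h2 : 7174453 ≤ w := by norm_num at h1; omega
    have h3 : 7174453 ^ 2 ≤ w ^ (s - 1) :=
      (Nat.pow_le_pow_left h2 2).trans (Nat.pow_le_pow_right (by omega) (by omega))
    norm_num at h3 hw43
    omega
  have htst := range2 x s d hx hx14 hs3 hs22 hso hd hd3 hc
  unfold tst2 at htst
  have hcop : Nat.Coprime M t := coprime_of_eq (d ^ x) ((d ^ x - 1) ^ s - 1) M t (by
      have h1 : 8 ^ 3 ≤ (d ^ x - 1) ^ s :=
        (Nat.pow_le_pow_left (by omega) 3).trans (Nat.pow_le_pow_right (by omega) hs3)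
      omega) (by omega) (by omega) (by rw [← pow_mul]; exact h)
  exact chk_sound (d ^ x) ((d ^ x - 1) ^ s - 1) (m02 (d ^ x - 1) s) htst M t (by omega) hto
    (by rw [hw]; exact hm0) hcop (by rw [← pow_mul]; exact h)

end Pool.Agent.Q37.E545
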